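import Pool.Agent.Lib.Tate.G.Spec

/-!
# C42 (MP_071d69_gt), G/Ep: the embeddings (helper77)
-/

set_option autoImplicit false

open Set Filter Topology

noncomputable section

namespace Pool.Agent.Tate.Fi

open Idx Toe Ko Cel Ext

namespace EpAux

variable {A : Type} [Fintype A] [DecidableEq A] {M b : ℕ}

theorem prj_surj (q : QQ A M) : ∃ j : JJ A M, prj A M j = q := by
  rcases q with a | m
  · exact ⟨Sum.inl (a, false), rfl⟩
  · exact ⟨Sum.inr m, rfl⟩


theorem prj_tz (e : ℤˣ) (j : JJ A M) : prj A M ((tz A M e).symm j) = prj A M j := by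
  unfold tz
  split_ifs
  · rfl
  · rw [← prj_tau, Equiv.apply_symm_apply]


theorem snd_apply {ε : Fin b → QQ A M} (hε : Function.Injective ε) (w : WW A M b) (x : Fin b)
    {j : JJ A M} (hj : prj A M j = ε x) : (embb ε w j).2 = w.2 x := by
  show (∑ x', if ε x' = prj A M j then w.2 x' else 0) = w.2 x
  rw [Finset.sum_eq_single x]
  · rw [if_pos hj.symm]
  · intro x' _ hx'
    rw [if_neg]
    intro h
    exact hx' (hε (h.trans hj))
  · intro h
    exact absurd (Finset.mem_univ x) h

theorem norm_le {ε : Fin b → QQ A M} (hε : Function.Injective ε) (w : WW A M b) :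
    ‖w‖ ≤ ‖embb ε w‖ := by
  rw [Prod.norm_def]
  refine max_le ?_ ?_
  · rw [pi_norm_le_iff_of_nonneg (norm_nonneg _)]
    intro q
    obtain ⟨j, rfl⟩ := prj_surj q
    exact (norm_fst_le (embb ε w j)).trans (norm_le_pi_norm (embb ε w) j)
  · rw [pi_norm_le_iff_of_nonneg (norm_nonneg _)]
    intro x
    obtain ⟨j, hj⟩ := prj_surj (ε x)
    rw [← snd_apply hε w x hj]
    exact (norm_snd_le (embb ε w j)).trans (norm_le_pi_norm (embb ε w) j)

end EpAux

open EpAux in
theorem pEp : S_Ep := by
  intro A _ _ M b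
  refine ⟨?_, ?_, ?_, ?_⟩
  · intro ε hε
    refine ⟨?_, ?_⟩
    · refine continuous_pi fun j => ?_
      refine Continuous.prodMk (by fun_prop) ?_
      refine continuous_finset_sum _ fun x _ => ?_
      split_ifs
      · fun_prop
      · exact continuous_const
    · rw [← Metric.cobounded_eq_cocompact, ← Metric.cobounded_eq_cocompact,
        ← tendsto_norm_atTop_iff_cobounded]
      exact tendsto_atTop_mono (norm_le hε) tendsto_norm_cobounded_atTop
  · intro ε G _ χ ψ g w
    funext j
    show (w.1 (prj A M ((tz A M (χ g)).symm j)), (ψ g : ℂ) *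
      ∑ x, if ε x = prj A M ((tz A M (χ g)).symm j) then w.2 x else 0) =
      (w.1 (prj A M j), ∑ x, if ε x = prj A M j then (ψ g : ℂ) * w.2 x else 0)
    rw [prj_tz, Finset.mul_sum]
    simp only [mul_ite, mul_zero]
  · intro ε u z
    funext j
    show (u (prj A M j), ∑ x, if ε x = prj A M j then
        (Fin.snoc (α := fun _ => ℂ) z 0 : Fin (b + 1) → ℂ) x else 0) =
      (u (prj A M j), ∑ x : Fin b, if ε x.castSucc = prj A M j then z x else 0)
    rw [Fin.sum_univ_castSucc]
    simp only [Fin.snoc_castSucc, Fin.snoc_last, ite_self, add_zero]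
  · intro ε w
    funext j
    show (w.1 (prj A M j), ∑ x : Fin 0, _) = (w.1 (prj A M j), 0)
    rw [Fin.sum_univ_zero]

end Pool.Agent.Tate.Fi
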