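import Pool.Agent.Lib.Tate.G.Spec

/-!
# C42 (MP_071d69_gt), block G: `S_G1`, adding copies of `λ`
-/

set_option autoImplicit false

open Set Filter Topology

noncomputable section

namespace Pool.Agent.Tate.Fi

open Idx Toe Ko Cel Ext

namespace G1Aux

/-- Splitting off the last coordinate. -/
def spl (A : Type) (M b : ℕ) : WW A M (b + 1) ≃ₜ WW A M b × ℂ where
  toFun w := ((w.1, fun x => w.2 x.castSucc), w.2 (Fin.last b))
  invFun w := (w.1.1, Fin.snoc (α := fun _ => ℂ) w.1.2 w.2)
  left_inv w := by
    refine Prod.ext rfl ?_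
    funext i
    refine Fin.lastCases ?_ (fun i => ?_) i
    · simp
    · simp
  right_inv w := by
    refine Prod.ext (Prod.ext rfl ?_) ?_
    · funext i
      simp
    · simp
  continuous_toFun := by fun_prop
  continuous_invFun := by
    refine (continuous_fst.comp continuous_fst).prodMk (continuous_pi fun i => ?_)
    refine Fin.lastCases ?_ (fun i => ?_) i
    · simpa using continuous_snd
    · simp only [Fin.snoc_castSucc]
      exact (continuous_apply i).comp (continuous_snd.comp continuous_fst)

/-- Forgetting a point. -/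
def fgt (A : Type) (M : ℕ) : WW A M 0 ≃ₜ (QQ A M → ℝ) where
  toFun w := w.1
  invFun u := (u, 0)
  left_inv w := Prod.ext rfl (Subsingleton.elim _ _)
  right_inv u := rfl
  continuous_toFun := continuous_fst
  continuous_invFun := by fun_prop

end G1Aux

open G1Aux in
theorem pG1 (h1 : Cel.S_In) (h2 : Cnn.S_Cn) (h3 : S_Sv) (h4 : S_Nt) (h5 : S_Si) (h6 : S_Ep) :
    S_G1 := by
  intro G _ _ χ ψ hCh A _ _ M k d b
  induction b with
  | zero =>
    intro ε _ _ hN
    have h := h4 G (Sph d × (QQ A M → ℝ)) (Sph d × WW A M 0) (CW (JJ A M))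
      ((actS χ d).prod (Act.triv G (QQ A M → ℝ))) ((actS χ d).prod (actU ψ A M 0)) (actW χ ψ A M)
      default (fun p => Conf.single (emb A M p.2) (Pk A M k) (Pk_herm M k) (Pk_idem M k))
      ((Homeomorph.refl _).prodCongr (fgt A M)) (fun g z => rfl) hN
    have hfun : (fun p : Sph d × WW A M 0 =>
        Conf.single (embb ε p.2) (Pk A M k) (Pk_herm M k) (Pk_idem M k)) =
        fun p => Conf.single (emb A M p.2.1) (Pk A M k) (Pk_herm M k) (Pk_idem M k) := by
      funext p
      rw [(h6 A M 0).2.2.2 ε p.2]
    rw [hfun]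
    exact h
  | succ b ih =>
    intro ε hε hle hN
    have hIH := ih (fun x => ε x.castSucc)
      (hε.comp (Fin.castSucc_injective b)) (by omega) hN
    set f : Sph d × (WW A M b × ℂ) → CW (JJ A M) := fun p =>
      Conf.single (embb ε ((spl A M b).symm p.2)) (Pk A M k) (Pk_herm M k) (Pk_idem M k) with hf
    have hfix : ∀ g, (actW χ ψ A M).a g default = default := fun g => (h5 G χ ψ A M k g).2
    have hext : ∀ n ≤ d + Module.finrank ℝ (WW A M b) + 2, ExtP (CW (JJ A M)) n := by
      intro n hn
      refine h2 (JJ A M → VV) (JJ A M → ZMod 4) n (hn.trans ?_)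
      have e1 : Module.finrank ℝ (WW A M b) = (Fintype.card A + M) + b * 2 := by
        rw [Module.finrank_prod, Module.finrank_fintype_fun_eq_card, Module.finrank_pi_fintype]
        simp
      have e2 : Module.finrank ℝ (JJ A M → VV) = (Fintype.card A * 2 + M) * 3 := by
        rw [Module.finrank_pi_fintype]
        simp
      rw [e1, e2]
      omega
    have hvan : VanOn default univ f := by
      refine h3 (Sph d) (WW A M b × ℂ) (JJ A M → VV) (JJ A M → ZMod 4)
        (fun w => embb ε ((spl A M b).symm w)) (Pk A M k) (Pk_herm M k) (Pk_idem M k) ?_ ?_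
      · exact (((h6 A M (b + 1)).1 ε hε).1).comp (spl A M b).symm.continuous
      · exact (((h6 A M (b + 1)).1 ε hε).2).comp
          (spl A M b).symm.isClosedEmbedding.tendsto_cocompact
    have hact : ∀ g (w : WW A M b × ℂ), (spl A M b).symm (((actU ψ A M b).prod (actC ψ)).a g w) =
        (actU ψ A M (b + 1)).a g ((spl A M b).symm w) := by
      intro g w
      refine Prod.ext rfl ?_
      funext i
      show Fin.snoc (α := fun _ => ℂ) (fun x => (ψ g : ℂ) * w.1.2 x) ((ψ g : ℂ) * w.2) i =
        (ψ g : ℂ) * Fin.snoc (α := fun _ => ℂ) w.1.2 w.2 i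
      refine Fin.lastCases ?_ (fun i => ?_) i
      · simp
      · simp
    have heqv : Eqv ((actS χ d).prod ((actU ψ A M b).prod (actC ψ))) (actW χ ψ A M) f := by
      intro g z
      show Conf.single (embb ε ((spl A M b).symm (((actU ψ A M b).prod (actC ψ)).a g z.2)))
        (Pk A M k) (Pk_herm M k) (Pk_idem M k) = (actW χ ψ A M).a g (Conf.single _ _ _ _)
      rw [hact, ← (h6 A M (b + 1)).2.1 ε G χ ψ g, (h5 G χ ψ A M k g).1]
    have hres : NullOn ((actS χ d).prod (actU ψ A M b)) (actW χ ψ A M) default univ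
        (fun p : Sph d × WW A M b => f (p.1, (p.2, 0))) := by
      have hfun : (fun p : Sph d × WW A M b => f (p.1, (p.2, 0))) = fun p : Sph d × WW A M b =>
          Conf.single (embb (fun x => ε x.castSucc) p.2) (Pk A M k) (Pk_herm M k)
            (Pk_idem M k) := by
        funext p
        show Conf.single (embb ε (p.2.1, Fin.snoc (α := fun _ => ℂ) p.2.2 0)) (Pk A M k)
          (Pk_herm M k) (Pk_idem M k) = _
        rw [(h6 A M b).2.2.1 ε p.2.1 p.2.2]
      rw [hfun]
      exact hIH
    have hmain := h1 G χ ψ hCh (WW A M b) (CW (JJ A M)) (actU ψ A M b) (actW χ ψ A M) default d f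
      hfix hext hvan heqv hres
    have h := h4 G (Sph d × (WW A M b × ℂ)) (Sph d × WW A M (b + 1)) (CW (JJ A M))
      ((actS χ d).prod ((actU ψ A M b).prod (actC ψ))) ((actS χ d).prod (actU ψ A M (b + 1)))
      (actW χ ψ A M) default f ((Homeomorph.refl _).prodCongr (spl A M b)) (fun g z => rfl) hmain
    have hfun : (fun p : Sph d × WW A M (b + 1) =>
        Conf.single (embb ε p.2) (Pk A M k) (Pk_herm M k) (Pk_idem M k)) =
        fun z => f (((Homeomorph.refl (Sph d)).prodCongr (spl A M b)) z) := by
      funext p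
      show _ = Conf.single (embb ε ((spl A M b).symm ((spl A M b) p.2))) _ _ _
      rw [Homeomorph.symm_apply_apply]
    rw [hfun]
    exact h

end Pool.Agent.Tate.Fi
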