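import Pool.Agent.Lib.Tate.G.Spec

/-!
# C42 (MP_071d69_gt), G/G2: from the null homotopy to a map on `ℝ^d × W` (helper59)
-/

set_option autoImplicit false

open Set Filter Topology

noncomputable section

namespace Pool.Agent.Tate.Fi

open Idx Toe Ko Cel Ext

namespace G2aux

open Classical in
/-- `x / ‖x‖`, and `s` for `x = 0`. -/
def dir {d : ℕ} (s : Sph d) (x : EuclideanSpace ℝ (Fin d)) : Sph d :=
  if h : x = 0 then s else ⟨(‖x‖)⁻¹ • x, by
    rw [mem_sphere_zero_iff_norm, norm_smul, norm_inv, norm_norm,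
      inv_mul_cancel₀ (norm_ne_zero_iff.2 h)]⟩

theorem dir_coe {d : ℕ} (s : Sph d) {x : EuclideanSpace ℝ (Fin d)} (h : x ≠ 0) :
    (dir s x : EuclideanSpace ℝ (Fin d)) = (‖x‖)⁻¹ • x := by
  unfold dir
  rw [dif_neg h]

theorem dir_neg {d : ℕ} (s : Sph d) {x : EuclideanSpace ℝ (Fin d)} (h : x ≠ 0) :
    dir s (-x) = -dir s x := by
  refine Subtype.ext ?_
  rw [dir_coe s (neg_ne_zero.2 h)]
  show _ = -(dir s x : EuclideanSpace ℝ (Fin d))
  rw [dir_coe s h, norm_neg, smul_neg]

theorem dir_cont {d : ℕ} (s : Sph d) {x : EuclideanSpace ℝ (Fin d)} (h : x ≠ 0) :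
    ContinuousAt (dir s) x := by
  rw [Topology.IsInducing.subtypeVal.continuousAt_iff]
  have h1 : (Subtype.val ∘ dir s) =ᶠ[𝓝 x] fun x => (‖x‖)⁻¹ • x := by
    filter_upwards [isOpen_ne.mem_nhds h] with y hy
    exact dir_coe s hy
  refine ContinuousAt.congr ?_ h1.symm
  exact (continuous_norm.continuousAt.inv₀ (norm_ne_zero_iff.2 h)).smul continuousAt_id

end G2aux

open G2aux in
theorem pG2 (h1 : Cel.S_Ha) : S_G2 := by
  classical
  intro G _ χ d W Y _ _ _ _ ω β y0 f hd hy0 hf hN
  obtain ⟨H, hH1, hH2, hH3⟩ := hN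
  obtain ⟨hc, hl⟩ := (h1 _ _ _ _ _).1 hH1
  obtain ⟨s₀⟩ : Nonempty (Sph d) := ⟨⟨EuclideanSpace.single (⟨0, hd⟩ : Fin d) (1 : ℝ), by simp⟩⟩
  set c : ℝ → ℝ := fun t => max 0 (min t 1) with hcdef
  have hcI : ∀ t, c t ∈ Icc (0 : ℝ) 1 := fun t =>
    ⟨le_max_left _ _, max_le zero_le_one (min_le_right _ _)⟩
  have hcc : Continuous c := by fun_prop
  have hc0 : c 0 = 0 := by
    rw [hcdef]
    norm_num
  set K : (Sph d × W) × ℝ → Y := fun p => H (p.1, c p.2) with hKdef
  have hK : Continuous K := hc.comp_continuous (by fun_prop) fun p => ⟨mem_univ _, hcI _⟩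
  have hK0 : ∀ z : Sph d × W, K (z, 0) = f z.2 := by
    intro z
    show H (z, c 0) = _
    rw [hc0]
    exact (hH2 z (mem_univ _)).1
  have hKe : ∀ (g : G) (z : Sph d × W) (t : ℝ),
      K (((actS χ d).prod ω).a g z, t) = β.a g (K (z, t)) := fun g z t =>
    hH3 g z (mem_univ _) (c t) (hcI t)
  refine ⟨fun p => K ((dir s₀ p.1, p.2), ‖p.1‖), ?_, ?_, ?_⟩
  · rw [h1]
    constructor
    · rw [continuousOn_univ, continuous_iff_continuousAt]
      rintro ⟨x, w⟩
      by_cases hx : x = 0
      · subst hx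
        show Tendsto _ _ (𝓝 _)
        intro N hNN
        rw [mem_map]
        have e0 : K ((dir s₀ (0 : EuclideanSpace ℝ (Fin d)), w), ‖(0 : EuclideanSpace ℝ (Fin d))‖) =
            f w := by
          rw [norm_zero]
          exact hK0 _
        simp only [e0] at hNN
        have key : ∀ᶠ z : W × ℝ in 𝓝 (w, (0 : ℝ)), ∀ a ∈ (univ : Set (Sph d)),
            K ((a, z.1), z.2) ∈ N := by
          refine IsCompact.eventually_forall_of_forall_eventually isCompact_univ ?_
          intro a _
          have h2 : Continuous fun z : (W × ℝ) × Sph d => K ((z.2, z.1.1), z.1.2) :=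
            hK.comp (by fun_prop)
          refine h2.continuousAt.eventually_mem ?_
          rw [show K ((a, w), (0 : ℝ)) = f w from hK0 (a, w)]
          exact hNN
        have h3 : ContinuousAt (fun p : EuclideanSpace ℝ (Fin d) × W => (p.2, ‖p.1‖)) (0, w) := by
          fun_prop
        have h4 := h3.tendsto.eventually (by
          simp only [norm_zero]
          exact key)
        filter_upwards [h4] with p hp
        exact hp _ (mem_univ _)
      · have h2 : ContinuousAt (fun p : EuclideanSpace ℝ (Fin d) × W =>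
            ((dir s₀ p.1, p.2), ‖p.1‖)) (x, w) := by
          refine ContinuousAt.prodMk (ContinuousAt.prodMk ?_ continuousAt_snd) ?_
          · exact ContinuousAt.comp (x := (x, w)) (g := dir s₀) (dir_cont s₀ hx) continuousAt_fst
          · exact continuous_norm.continuousAt.comp continuousAt_fst
        exact hK.continuousAt.comp h2
    · rw [principal_univ, inf_top_eq]
      intro N hNN
      have h2 := hl hNN
      rw [mem_map, mem_inf_principal, mem_cocompact] at h2
      obtain ⟨C, hC1, hC2⟩ := h2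
      rw [mem_map, mem_cocompact]
      refine ⟨Metric.closedBall 0 1 ×ˢ ((fun p : (Sph d × W) × ℝ => p.1.2) '' C),
        (isCompact_closedBall _ _).prod (hC1.image (by fun_prop)), ?_⟩
      rintro ⟨x, w⟩ hxw
      show H ((dir s₀ x, w), c ‖x‖) ∈ N
      by_cases hx : ‖x‖ ≤ 1
      · refine hC2 (fun hmem => hxw ⟨by simpa using hx, ⟨_, hmem, rfl⟩⟩) ⟨mem_univ _, hcI _⟩
      · have : c ‖x‖ = 1 := by
          rw [hcdef]
          simp only
          rw [min_eq_right (not_le.1 hx).le, max_eq_right zero_le_one]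
        rw [this, (hH2 (dir s₀ x, w) (mem_univ _)).2]
        exact mem_of_mem_nhds hNN
  · intro w
    show K ((dir s₀ 0, w), ‖(0 : EuclideanSpace ℝ (Fin d))‖) = f w
    rw [norm_zero]
    exact hK0 _
  · intro g x w
    show K ((dir s₀ (if χ g = 1 then x else -x), ω.a g w), ‖if χ g = 1 then x else -x‖) =
      β.a g (K ((dir s₀ x, w), ‖x‖))
    have hn : ‖if χ g = 1 then x else -x‖ = ‖x‖ := by
      split_ifs
      · rfl
      · exact norm_neg x
    rw [hn, ← hKe]
    by_cases hx : x = 0
    · subst hx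
      rw [norm_zero, hK0, hK0]
      rfl
    · have : dir s₀ (if χ g = 1 then x else -x) = (actS χ d).a g (dir s₀ x) := by
        show _ = if χ g = 1 then dir s₀ x else -dir s₀ x
        split_ifs
        · rfl
        · exact dir_neg s₀ hx
      rw [this]
      rfl

end Pool.Agent.Tate.Fi
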