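import Pool.Agent.Lib.Tate.G.Spec

set_option autoImplicit false

open Set Filter Topology

noncomputable section

namespace Pool.Agent.Tate.Fi

open Idx Toe Ko Cel Ext

theorem pGr : S_Gr := by
  let K : Subgroup Circle := (powMonoidHom 4 : Circle →* Circle).ker
  have hK : ∀ z : Circle, z ∈ K ↔ z ^ 4 = 1 := fun z => Iff.rfl
  let ii : Circle := ⟨Complex.I, mem_sphere_zero_iff_norm.2 Complex.norm_I⟩
  have hii : (ii : ℂ) = Complex.I := rfl
  have hii4 : ii ∈ K := by
    rw [hK]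
    apply Circle.ext
    rw [Circle.coe_pow, hii, Complex.I_pow_four, Circle.coe_one]
  have hfin : Finite K := by
    have h1 : {z : ℂ | z ^ 4 = 1}.Finite := by
      refine (Finset.finite_toSet (Polynomial.nthRoots 4 (1 : ℂ)).toFinset).subset fun z hz => ?_
      rw [Finset.mem_coe, Multiset.mem_toFinset, Polynomial.mem_nthRoots (by norm_num)]
      exact hz
    have h2 : Finite {z : ℂ | z ^ 4 = 1} := h1.to_subtype
    refine Finite.of_injective (fun z : K => (⟨((z : Circle) : ℂ), ?_⟩ : {z : ℂ | z ^ 4 = 1})) ?_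
    · have h3 : (z : Circle) ^ 4 = 1 := (hK _).1 z.2
      show ((z : Circle) : ℂ) ^ 4 = 1
      rw [← Circle.coe_pow, h3, Circle.coe_one]
    · intro z z' h
      have h3 := congrArg Subtype.val h
      exact Subtype.ext (Circle.ext h3)
  refine ⟨ℤˣ × K, inferInstance, inferInstance, MonoidHom.fst ℤˣ K,
    K.subtype.comp (MonoidHom.snd ℤˣ K), (-1, ⟨ii, hii4⟩), ⟨?_, ?_, ?_, ?_⟩, rfl, rfl⟩
  · rintro ⟨a, b⟩ h1 h2
    exact Prod.ext h1 (Subtype.ext h2)
  · rintro ⟨a, b⟩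
    exact (hK _).1 b.2
  · exact ⟨(1, ⟨ii, hii4⟩), rfl, rfl⟩
  · exact ⟨(-1, 1), rfl, rfl⟩

end Pool.Agent.Tate.Fi
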