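import Pool.Agent.Lib.Tate.G.Spec

/-!
# C42 (MP_071d69_gt), block G: `S_NT`, the Tate construction of the witness is not `K(0)`-acyclic
-/

set_option autoImplicit false

open Set Filter Topology

noncomputable section

namespace Pool.Agent.Tate.Fi

open Idx Toe Ko Cel Ext

namespace NTAux

private theorem num (k h a d' : ℕ) (hk : 1 ≤ k) (ha : k ^ 2 ≤ a) (hd : d' = 3 * h + a)
    (hle : (2 : ℝ) ^ d' ≤ k * (Real.sqrt 2 ^ a * 2 ^ h * Real.sqrt 2 ^ (2 * h))) : False := by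
  have h2 : Real.sqrt 2 * Real.sqrt 2 = 2 := Real.mul_self_sqrt (by norm_num)
  obtain ⟨x, hx⟩ : ∃ x : ℝ, x = 2 ^ h := ⟨_, rfl⟩
  obtain ⟨y, hy⟩ : ∃ y : ℝ, y = 2 ^ a := ⟨_, rfl⟩
  obtain ⟨s, hs⟩ : ∃ s : ℝ, s = Real.sqrt 2 ^ a := ⟨_, rfl⟩
  have hss : s * s = y := by rw [hs, hy, ← mul_pow, h2]
  have e1 : Real.sqrt 2 ^ (2 * h) = x := by rw [pow_mul, pow_two, h2, hx]
  have e2 : (2 : ℝ) ^ d' = x ^ 3 * y := by
    rw [hd, pow_add, hx, hy, mul_comm 3 h, pow_mul]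
  rw [e1, e2, ← hs, ← hx] at hle
  have hx1 : 1 ≤ x := by
    rw [hx]
    exact one_le_pow₀ (by norm_num)
  have hx0 : 0 < x := lt_of_lt_of_le one_pos hx1
  have hs0 : 0 < s := by
    rw [hs]
    exact pow_pos (Real.sqrt_pos.2 (by norm_num)) _
  have hy0 : 0 < y := by
    rw [← hss]
    exact mul_pos hs0 hs0
  have hky : (k : ℝ) ^ 2 < y := by
    have h3 : a < 2 ^ a := Nat.lt_two_pow_self
    have h4 : k ^ 2 < 2 ^ a := lt_of_le_of_lt ha h3
    rw [hy]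
    exact_mod_cast h4
  -- `x s ≤ k`
  have h5 : x ^ 2 * s * (x * s) ≤ x ^ 2 * s * k := by
    calc x ^ 2 * s * (x * s) = x ^ 3 * y := by rw [← hss]; ring
      _ ≤ k * (s * x * x) := hle
      _ = x ^ 2 * s * k := by ring
  have h6 : x * s ≤ k := le_of_mul_le_mul_left h5 (by positivity)
  have h7 : s ≤ k := by
    calc s = 1 * s := (one_mul s).symm
      _ ≤ x * s := mul_le_mul_of_nonneg_right hx1 hs0.le
      _ ≤ k := h6
  have h8 : y ≤ (k : ℝ) ^ 2 := by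
    rw [← hss, pow_two]
    exact mul_le_mul h7 h7 hs0.le (by positivity)
  exact absurd hky (not_lt.2 h8)

private theorem cardAA (n : ℕ) : Fintype.card (AA n) = 2 * (n + 1) := by
  simp
  omega

end NTAux

open NTAux

theorem pNT (_h1 : Cel.S_Ha) (h2 : Cel.S_Co) (h3 : Ext.S_T4) (h4 : S_Sv) (h5 : S_Ep) (h6 : S_Si)
    (h7 : S_G1) (h8 : S_G2) (h9 : S_Gr) (h10 : S_Yf) : S_NT := by
  intro hRe hMu hUn hT2 hA
  obtain ⟨k, n, hk1, hd⟩ := h3 hRe hMu hUn hT2 hA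
  obtain ⟨G, iG, fG, χ, ψ, g, hCh, hg1, hg2⟩ := h9
  obtain ⟨a, ha⟩ : ∃ a, a = k ^ 2 + (n + 1) + 1 := ⟨_, rfl⟩
  obtain ⟨d', hd'⟩ : ∃ d', d' = 3 * (n + 1) + a := ⟨_, rfl⟩
  obtain ⟨M₀, hM₀⟩ := hd (2 * d')
  obtain ⟨M, hM⟩ : ∃ M, M = 2 * (M₀ + d') + 1 := ⟨_, rfl⟩
  obtain ⟨p, hp⟩ : ∃ p, p = (n + 1) + (M₀ + d') := ⟨_, rfl⟩
  obtain ⟨b, hb⟩ : ∃ b, b + d' = 5 * (n + 1) + M := ⟨5 * (n + 1) + M - d', by omega⟩
  obtain ⟨hkM, hnull⟩ := hM₀ M (by omega)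
  have hcard := cardAA n
  have hbq : Fintype.card (Fin b) ≤ Fintype.card (QQ (AA n) M) := by
    rw [Fintype.card_fin, Fintype.card_sum, hcard, Fintype.card_fin]
    omega
  obtain ⟨ε⟩ := Function.Embedding.nonempty_of_card_le hbq
  have hN1 := hnull G χ ψ hCh.four
  have hN2 := h7 G χ ψ hCh (AA n) M k (2 * d') b ε ε.injective (by rw [hcard]; omega) hN1
  obtain ⟨hec, hep⟩ := (h5 (AA n) M b).1 ε ε.injective
  have hV1 := h4 Unit (WW (AA n) M b) (JJ (AA n) M → VV) (JJ (AA n) M → ZMod 4) (embb ε)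
    (Pk (AA n) M k) (Pk_herm M k) (Pk_idem M k) hec hep
  have hemb : IsClosedEmbedding fun w : WW (AA n) M b => ((), w) := by
    refine Topology.IsClosedEmbedding.of_continuous_injective_isClosedMap (by fun_prop) ?_ ?_
    · intro w w' h
      exact (Prod.ext_iff.1 h).2
    · exact (Homeomorph.punitProd (WW (AA n) M b)).symm.isClosedMap
  have hV2 := h2 (Unit × WW (AA n) M b) (WW (AA n) M b) (CW (JJ (AA n) M)) default univ univ
    (fun p : Unit × WW (AA n) M b =>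
      Conf.single (embb ε p.2) (Pk (AA n) M k) (Pk_herm M k) (Pk_idem M k))
    (fun w => ((), w)) hV1 hemb.continuous.continuousOn (fun _ _ => mem_univ _)
    (by
      rw [principal_univ, inf_top_eq]
      exact hemb.tendsto_cocompact)
  obtain ⟨F', hF1, hF2, hF3⟩ := h8 G χ (2 * d') (WW (AA n) M b) (CW (JJ (AA n) M))
    (actU ψ (AA n) M b) (actW χ ψ (AA n) M) default
    (fun w => Conf.single (embb ε w) (Pk (AA n) M k) (Pk_herm M k) (Pk_idem M k)) (by omega)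
    (fun g' => (h6 G χ ψ (AA n) M k g').2) hV2 hN2
  have hle := h10 G χ ψ g hg1 hg2 (AA n) M k (n + 1) p a b d' ε F' ε.injective hcard
    (by omega) (by omega) hk1 hkM hF1 hF2 (fun x w => by
      have := hF3 g x w
      rw [if_neg (by rw [hg1]; decide)] at this
      exact this)
  exact num k (n + 1) a d' hk1 (by omega) hd' hle

end Pool.Agent.Tate.Fi
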