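import Pool.Agent.Lib.Tate.G.Spec

set_option autoImplicit false

open Set Filter Topology

noncomputable section

namespace Pool.Agent.Tate.Fi

open Idx Toe Ko Cel Ext

theorem pNt (h1 : Cel.S_Co) : S_Nt := by
  intro G _ Z Z' Y _ _ _ _ _ α α' β y0 f κ hκ hf
  obtain ⟨H, hH1, hH2, hH3⟩ := hf
  let e : Z' × ℝ ≃ₜ Z × ℝ := κ.prodCongr (Homeomorph.refl ℝ)
  have he : ∀ p, e p = (κ p.1, p.2) := fun _ => rfl
  refine ⟨fun p => H (e p), ?_, ?_, ?_⟩
  · refine h1 (Z × ℝ) (Z' × ℝ) Y y0 (univ ×ˢ Icc (0 : ℝ) 1) (univ ×ˢ Icc (0 : ℝ) 1) H e hH1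
      e.continuous.continuousOn (fun z hz => ⟨mem_univ _, hz.2⟩) ?_
    exact e.isClosedEmbedding.tendsto_cocompact.mono_left inf_le_left
  · intro z _
    simp only [he]
    exact hH2 (κ z) (mem_univ _)
  · intro g z _ t ht
    simp only [he]
    rw [hκ]
    exact hH3 g (κ z) (mem_univ _) t ht

end Pool.Agent.Tate.Fi
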