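import Pool.Agent.Lib.Tate.G.Spec

/-!
# C42, block G, P1: invertibility of Ps (helper19)
-/

set_option autoImplicit false

open Set Filter Topology

noncomputable section

namespace Pool.Agent.Tate.Fi

open Idx Toe Ko Cel Ext

theorem pP1 : S_P1 := by
  intro Y L E _ _ _ _ X X' c hXX
  have key : ∀ y z : Y, Matrix.kroneckerMap (fun x y => x * y) (c.P y) (X y - 1) *
      Matrix.kroneckerMap (fun x y => x * y) (c.P z) (X' z - 1) =
      Matrix.kroneckerMap (fun x y => x * y) (c.P y * c.P z) ((X y - 1) * (X' z - 1)) :=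
    fun y z => (Matrix.mul_kronecker_mul (c.P y) (c.P z) (X y - 1) (X' z - 1)).symm
  have hmul : (∑ y ∈ c.fin.toFinset, Matrix.kroneckerMap (fun x y => x * y) (c.P y) (X y - 1)) *
      (∑ z ∈ c.fin.toFinset, Matrix.kroneckerMap (fun x y => x * y) (c.P z) (X' z - 1)) =
      ∑ y ∈ c.fin.toFinset,
        Matrix.kroneckerMap (fun x y => x * y) (c.P y) ((X y - 1) * (X' y - 1)) := by
    rw [Finset.sum_mul_sum]
    refine Finset.sum_congr rfl fun y hy => ?_
    rw [Finset.sum_eq_single y]
    · rw [key, c.idem]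
    · intro z _ hz
      rw [key, c.orth _ _ hz.symm]
      ext i j
      simp [Matrix.kroneckerMap_apply]
    · intro h
      exact absurd hy h
  rw [Ps, Ps, mul_add, mul_one, add_mul, one_mul, hmul]
  have hz : (∑ y ∈ c.fin.toFinset, Matrix.kroneckerMap (fun x y => x * y) (c.P y) (X y - 1)) +
      ((∑ y ∈ c.fin.toFinset, Matrix.kroneckerMap (fun x y => x * y) (c.P y) (X' y - 1)) +
      ∑ y ∈ c.fin.toFinset,
        Matrix.kroneckerMap (fun x y => x * y) (c.P y) ((X y - 1) * (X' y - 1))) = 0 := by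
    rw [← Finset.sum_add_distrib, ← Finset.sum_add_distrib]
    refine Finset.sum_eq_zero fun y _ => ?_
    have h1 : (X y - 1) + ((X' y - 1) + (X y - 1) * (X' y - 1)) = 0 := by
      rw [sub_mul, mul_sub, hXX y]
      simp only [mul_one, one_mul]
      abel
    ext i j
    have h2 := congrFun (congrFun h1 i.2) j.2
    simp only [Matrix.add_apply, Matrix.zero_apply] at h2
    simp only [Matrix.add_apply, Matrix.kroneckerMap_apply, Matrix.zero_apply]
    rw [← mul_add, ← mul_add, h2, mul_zero]
  rw [add_assoc, hz, add_zero]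

end Pool.Agent.Tate.Fi
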