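import Pool.Agent.Lib.Tate.G.Spec

/-!
# C42, block G, P2: continuity of Ps (helper19)
-/

set_option autoImplicit false

open Set Filter Topology
open scoped ZeroAtInfty

noncomputable section

namespace Pool.Agent.Tate.Fi

open Idx Toe Ko Cel Ext

theorem pP2 : S_P2 := by
  intro Y L E _ _ _ _ _ X hX hlim
  refine continuous_matrix fun p q => ?_
  have hlim' : Tendsto (fun y => X y p.2 q.2 - (1 : Matrix E E ℂ) p.2 q.2) (cocompact Y) (𝓝 0) := by
    have := (hlim p.2 q.2).sub_const ((1 : Matrix E E ℂ) p.2 q.2)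
    simpa using this
  have hc : Continuous fun y => X y p.2 q.2 - (1 : Matrix E E ℂ) p.2 q.2 :=
    (hX p.2 q.2).sub continuous_const
  let r : C₀(Y, ℝ) :=
    { toFun := fun y => (X y p.2 q.2 - (1 : Matrix E E ℂ) p.2 q.2).re
      continuous_toFun := Complex.continuous_re.comp hc
      zero_at_infty' := by
        have h := (Complex.continuous_re.tendsto 0).comp hlim'
        rw [Complex.zero_re] at h
        exact h }
  let s : C₀(Y, ℝ) :=
    { toFun := fun y => (X y p.2 q.2 - (1 : Matrix E E ℂ) p.2 q.2).im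
      continuous_toFun := Complex.continuous_im.comp hc
      zero_at_infty' := by
        have h := (Complex.continuous_im.tendsto 0).comp hlim'
        rw [Complex.zero_im] at h
        exact h }
  have hev : ∀ f : C₀(Y, ℝ), Continuous fun c : Conf Y L => c.ev f := fun f =>
    (Conf.continuous_iff (g := fun c : Conf Y L => c)).mp continuous_id f
  have heq : (fun c : Conf Y L => Ps X c p q) = fun c : Conf Y L =>
      (1 : Matrix (L × E) (L × E) ℂ) p q + (c.ev r p.1 q.1 + Complex.I * c.ev s p.1 q.1) := by
    funext c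
    rw [Ps, Matrix.add_apply, Conf.ev_apply, Conf.ev_apply, Matrix.sum_apply, Finset.mul_sum,
      ← Finset.sum_add_distrib]
    congr 1
    refine Finset.sum_congr rfl fun y _ => ?_
    rw [Matrix.kroneckerMap_apply, Matrix.sub_apply]
    have h1 : X y p.2 q.2 - (1 : Matrix E E ℂ) p.2 q.2 = ((r y : ℝ) : ℂ) + (s y : ℝ) * Complex.I :=
      (Complex.re_add_im (X y p.2 q.2 - (1 : Matrix E E ℂ) p.2 q.2)).symm
    rw [h1]
    ring
  rw [heq]
  exact continuous_const.add (((hev r).matrix_elem p.1 q.1).add
    (continuous_const.mul ((hev s).matrix_elem p.1 q.1)))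

end Pool.Agent.Tate.Fi
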