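import Pool.Agent.Lib.Tate.G.Spec

/-!
# C42, block G, P3: special values of Ps (helper19)
-/

set_option autoImplicit false

open Set Filter Topology

noncomputable section

namespace Pool.Agent.Tate.Fi

open Idx Toe Ko Cel Ext

theorem pP3 : S_P3 := by
  intro Y L E _ _ _ _ X
  constructor
  · rw [Ps]
    rw [Finset.sum_eq_zero, add_zero]
    intro y _
    ext i j
    simp [Matrix.kroneckerMap_apply]
  · intro y P h1 h2
    rw [Ps]
    congr 1
    rw [Finset.sum_eq_single y]
    · rw [Conf.single_self]
    · intro z _ hz
      rw [Conf.single_ne P h1 h2 hz]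
      ext i j
      simp [Matrix.kroneckerMap_apply]
    · intro h
      have h3 : (Conf.single y P h1 h2).P y = 0 := by
        by_contra hne
        exact h (by simpa using hne)
      rw [h3]
      ext i j
      simp [Matrix.kroneckerMap_apply]

end Pool.Agent.Tate.Fi
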