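import Pool.Agent.Lib.Tate.G.Spec

/-!
# C42, block G, P4: equivariance of Ps (helper19)
-/

set_option autoImplicit false

open Set Filter Topology

noncomputable section

namespace Pool.Agent.Tate.Fi

open Idx Toe Ko Cel Ext

theorem pP4 : S_P4 := by
  intro Y L E _ _ _ _ X γ c c' μ η hμ hP hX p q
  have hμ0 : ∀ l, μ l ≠ 0 := fun l h => by
    have := hμ l
    rw [h, norm_zero] at this
    exact zero_ne_one this
  have hconj : ∀ l, (starRingEnd ℂ) (μ l) = (μ l)⁻¹ := fun l => (Complex.inv_eq_conj (hμ l)).symm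
  have hsupp : ∀ y, c.P y ≠ 0 ↔ c'.P (γ y) ≠ 0 := by
    intro y
    rw [not_iff_not]
    constructor
    · intro h
      ext l l'
      rw [hP, h]
      simp
    · intro h
      ext l l'
      have h1 := hP y l l'
      rw [h, hconj] at h1
      simp only [Matrix.zero_apply] at h1
      have h2 : c.P y l l' = 0 := by
        rcases mul_eq_zero.mp h1.symm with h3 | h3
        · exact (mul_eq_zero.mp h3).resolve_left (hμ0 l)
        · exact absurd h3 (inv_ne_zero (hμ0 l'))
      simpa using h2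
  have hsum : (∑ y ∈ c'.fin.toFinset,
      Matrix.kroneckerMap (fun x y => x * y) (c'.P y) (X y - 1) p q) =
      ∑ y ∈ c.fin.toFinset,
        Matrix.kroneckerMap (fun x y => x * y) (c'.P (γ y)) (X (γ y) - 1) p q := by
    symm
    refine Finset.sum_equiv γ (fun y => ?_) (fun y _ => rfl)
    simpa using hsupp y
  rw [Ps, Ps, Matrix.add_apply, Matrix.add_apply, Matrix.sum_apply, Matrix.sum_apply, hsum,
    add_mul, mul_add, Finset.sum_mul, Finset.mul_sum]
  congr 1
  · by_cases h : p = q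
    · rw [h]
      simp
    · rw [Matrix.one_apply_ne h]
      simp
  · refine Finset.sum_congr rfl fun y _ => ?_
    rw [Matrix.kroneckerMap_apply, Matrix.kroneckerMap_apply, hP, hconj, Matrix.sub_apply,
      Matrix.sub_apply]
    have h1 := hX y p.2 q.2
    have h2 : (1 : Matrix E E ℂ) p.2 q.2 * η p.2 = η q.2 * (1 : Matrix E E ℂ) p.2 q.2 := by
      by_cases h : p.2 = q.2
      · rw [h]
        simp
      · rw [Matrix.one_apply_ne h]
        simp
    have h3 : μ p.1 * (μ p.1)⁻¹ = 1 := mul_inv_cancel₀ (hμ0 p.1)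
    calc μ p.1 * c.P y p.1 q.1 * (μ q.1)⁻¹ * (X (γ y) p.2 q.2 - (1 : Matrix E E ℂ) p.2 q.2) *
          ((μ p.1)⁻¹ * η p.2)
        = (μ p.1 * (μ p.1)⁻¹) * (c.P y p.1 q.1 * (μ q.1)⁻¹) *
          (X (γ y) p.2 q.2 * η p.2 - (1 : Matrix E E ℂ) p.2 q.2 * η p.2) := by ring
      _ = (μ q.1)⁻¹ * η q.2 * (c.P y p.1 q.1 * (X y p.2 q.2 - (1 : Matrix E E ℂ) p.2 q.2)) := by
          rw [h1, h2, h3]
          ring

end Pool.Agent.Tate.Fi
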