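import Pool.Agent.Lib.Tate.G.Spec

/-!
# C42 (MP_071d69_gt), G/Sa: stereographic projection and subspaces (helper25, task 12578)
-/

set_option autoImplicit false

open Set Filter Topology

noncomputable section

namespace Pool.Agent.Tate.Fi

open Idx Toe Ko Cel Ext

private theorem Sa_nsq (M n : ℕ) (v : Fin M → ℂ) :
    nsq (Fin.append v (0 : Fin n → ℂ)) = nsq v := by
  unfold nsq
  rw [Fin.sum_univ_add]
  simp

private theorem Sa_ne {M n : ℕ} (i : Fin M) (j : Fin n) : Fin.natAdd M j ≠ Fin.castAdd n i := by
  intro h
  have := congrArg Fin.val h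
  simp only [Fin.val_natAdd, Fin.val_castAdd] at this
  have := i.2
  omega

theorem pSa : S_Sa := by
  intro M n i₀ v
  constructor
  · funext i
    unfold st
    rw [Sa_nsq]
    refine Fin.addCases (fun j => ?_) (fun j => ?_) i
    · simp only [Fin.append_left, (Fin.castAdd_injective M n).eq_iff]
    · simp only [Fin.append_right, Pi.zero_apply, if_neg (Sa_ne i₀ j), mul_zero, add_zero, zero_div]
  · funext i
    unfold sti
    refine Fin.addCases (fun j => ?_) (fun j => ?_) i
    · simp only [Fin.append_left, (Fin.castAdd_injective M n).eq_iff]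
    · simp only [Fin.append_right, Pi.zero_apply, if_neg (Sa_ne i₀ j), sub_zero, zero_div]

end Pool.Agent.Tate.Fi
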