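import Pool.Agent.Lib.Tate.G.Spec

/-!
# C42, block G, St: stereographic projection (helper19)
-/

set_option autoImplicit false

open Set Filter Topology

noncomputable section

namespace Pool.Agent.Tate.Fi

open Idx Toe Ko Cel Ext

namespace StAux

variable {N : ℕ}

lemma nsq_nonneg (v : Fin N → ℂ) : 0 ≤ nsq v := Finset.sum_nonneg fun i _ => by positivity

lemma nsq_continuous : Continuous (nsq : (Fin N → ℂ) → ℝ) := by
  unfold nsq
  fun_prop

lemma le_nsq (v : Fin N → ℂ) (i : Fin N) : ‖v i‖ ^ 2 ≤ nsq v :=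
  Finset.single_le_sum (f := fun i => ‖v i‖ ^ 2) (fun i _ => by positivity) (Finset.mem_univ i)

lemma nsq_le (v : Fin N → ℂ) : nsq v ≤ N * ‖v‖ ^ 2 := by
  unfold nsq
  calc ∑ i, ‖v i‖ ^ 2 ≤ ∑ _i : Fin N, ‖v‖ ^ 2 :=
        Finset.sum_le_sum fun i _ => pow_le_pow_left₀ (norm_nonneg _) (norm_le_pi_norm v i) 2
    _ = N * ‖v‖ ^ 2 := by simp

lemma norm_le_nsq [Nonempty (Fin N)] (v : Fin N → ℂ) : ‖v‖ ^ 2 ≤ nsq v := by
  have h1 : ‖v‖ ≤ Real.sqrt (nsq v) := by
    rw [pi_norm_le_iff_of_nonneg (Real.sqrt_nonneg _)]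
    intro i
    exact Real.le_sqrt_of_sq_le (le_nsq v i)
  calc ‖v‖ ^ 2 ≤ Real.sqrt (nsq v) ^ 2 := pow_le_pow_left₀ (norm_nonneg _) h1 2
    _ = nsq v := Real.sq_sqrt (nsq_nonneg v)

/-- The basic identity. -/
lemma nsq_add (i₀ : Fin N) (a : Fin N → ℂ) (c : ℝ) :
    nsq (fun i => a i + (if i = i₀ then (c : ℂ) else 0)) = nsq a + 2 * c * (a i₀).re + c ^ 2 := by
  unfold nsq
  have h1 : ∀ i, ‖a i + (if i = i₀ then (c : ℂ) else 0)‖ ^ 2 =
      ‖a i‖ ^ 2 + (if i = i₀ then 2 * c * (a i₀).re + c ^ 2 else 0) := by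
    intro i
    by_cases h : i = i₀
    · rw [if_pos h, if_pos h, h, ← Complex.normSq_eq_norm_sq, ← Complex.normSq_eq_norm_sq,
        Complex.normSq_apply, Complex.normSq_apply]
      simp only [Complex.add_re, Complex.ofReal_re, Complex.add_im, Complex.ofReal_im, add_zero]
      ring
    · rw [if_neg h, if_neg h, add_zero, add_zero]
  simp_rw [h1]
  rw [Finset.sum_add_distrib, Finset.sum_ite_eq' Finset.univ i₀]
  simp only [Finset.mem_univ, if_true]
  ring

lemma nsq_smul (c : ℝ) (a : Fin N → ℂ) : nsq (fun i => a i / (c : ℂ)) = nsq a / c ^ 2 := by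
  unfold nsq
  rw [Finset.sum_div]
  refine Finset.sum_congr rfl fun i _ => ?_
  rw [norm_div, div_pow, Complex.norm_real, Real.norm_eq_abs, sq_abs]

lemma nsq_two (v : Fin N → ℂ) : nsq (fun i => 2 * v i) = 4 * nsq v := by
  unfold nsq
  rw [Finset.mul_sum]
  refine Finset.sum_congr rfl fun i _ => ?_
  rw [norm_mul, mul_pow]
  norm_num

lemma nsq_st (i₀ : Fin N) (v : Fin N → ℂ) (hv : (v i₀).re = 0) : nsq (st i₀ v) = 1 := by
  have h1 := nsq_nonneg v
  have h2 : st i₀ v = fun i => (2 * v i + (if i = i₀ then ((nsq v - 1 : ℝ) : ℂ) else 0)) /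
    ((nsq v + 1 : ℝ) : ℂ) := rfl
  rw [h2, nsq_smul, nsq_add, nsq_two]
  have h3 : (2 * v i₀).re = 0 := by
    simp [hv]
  rw [h3, div_eq_one_iff_eq (by positivity)]
  ring

lemma tendsto_nsq (i₀ : Fin N) : Tendsto (nsq : (Fin N → ℂ) → ℝ) (cocompact _) atTop := by
  haveI : Nonempty (Fin N) := ⟨i₀⟩
  have h1 : Tendsto (fun v : Fin N → ℂ => ‖v‖ ^ 2) (cocompact _) atTop :=
    (tendsto_pow_atTop (by norm_num)).comp (tendsto_norm_cocompact_atTop)
  exact tendsto_atTop_mono (fun v => norm_le_nsq v) h1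

lemma tendsto_cocompact_of_nsq {X : Type} {l : Filter X} {f : X → Fin N → ℂ}
    (h : Tendsto (fun x => nsq (f x)) l atTop) : Tendsto f l (cocompact _) := by
  rw [← Metric.cobounded_eq_cocompact, ← tendsto_norm_atTop_iff_cobounded]
  rw [tendsto_atTop]
  intro b
  filter_upwards [h.eventually_gt_atTop (N * |b| ^ 2)] with x hx
  by_contra hcon
  push Not at hcon
  have h1 : ‖f x‖ ≤ |b| := hcon.le.trans (le_abs_self b)
  have h2 := nsq_le (f x)
  have h3 : (N : ℝ) * ‖f x‖ ^ 2 ≤ N * |b| ^ 2 := by gcongr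
  linarith

lemma nsq_mul (ζ v : Fin N → ℂ) (h : ∀ i, ‖ζ i‖ = 1) : nsq (fun i => ζ i * v i) = nsq v := by
  unfold nsq
  refine Finset.sum_congr rfl fun i _ => ?_
  rw [norm_mul, h, one_mul]

lemma mem_Sp {z : Fin N → ℂ} : z ∈ Sp N ↔ nsq z = 1 := Iff.rfl

lemma re_lt (i₀ : Fin N) {z : Fin N → ℂ} (hz : z ∈ Sp N) (hne : z ≠ Pi.single i₀ 1) :
    (z i₀).re < 1 := by
  have h1 : nsq z = 1 := hz
  by_contra hcon
  push Not at hcon
  apply hne
  have h2 := nsq_add i₀ z (-1)
  have h3 : nsq (fun i => z i + (if i = i₀ then (((-1 : ℝ)) : ℂ) else 0)) = 0 := by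
    apply le_antisymm _ (nsq_nonneg _)
    rw [h2, h1]
    linarith
  funext i
  have h4 := le_nsq (fun i => z i + (if i = i₀ then (((-1 : ℝ)) : ℂ) else 0)) i
  rw [h3] at h4
  have h5 : ‖z i + (if i = i₀ then (((-1 : ℝ)) : ℂ) else 0)‖ = 0 := by
    have : 0 ≤ ‖z i + (if i = i₀ then (((-1 : ℝ)) : ℂ) else 0)‖ := norm_nonneg _
    nlinarith
  have h6 := norm_eq_zero.mp h5
  by_cases h : i = i₀
  · subst h
    rw [if_pos rfl] at h6
    rw [Pi.single_eq_same]
    push_cast at h6
    linear_combination h6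
  · rw [if_neg h, add_zero] at h6
    rw [h6, Pi.single_eq_of_ne h]

lemma nsq_sti (i₀ : Fin N) {z : Fin N → ℂ} (hz : z ∈ Sp N) (hne : z ≠ Pi.single i₀ 1) :
    nsq (sti i₀ z) = (1 + (z i₀).re) / (1 - (z i₀).re) := by
  have h0 := re_lt i₀ hz hne
  have h1 : nsq z = 1 := hz
  have h2 : sti i₀ z = fun i => (z i + (if i = i₀ then ((-(z i₀).re : ℝ) : ℂ) else 0)) /
      ((1 - (z i₀).re : ℝ) : ℂ) := by
    funext i
    simp only [sti]
    congr 1
    by_cases h : i = i₀
    · rw [if_pos h, if_pos h]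
      push_cast
      ring
    · rw [if_neg h, if_neg h]
      ring
  rw [h2, nsq_smul, nsq_add, h1]
  have h3 : 1 - (z i₀).re ≠ 0 := by linarith
  field_simp
  ring

end StAux

open StAux in
theorem pSt : S_St := by
  intro N i₀
  refine ⟨?_, ⟨?_, ?_⟩, ?_, ⟨?_, ?_⟩, ?_⟩
  · intro v hv
    exact nsq_st i₀ v hv
  · refine continuous_pi fun i => ?_
    have h1 : ∀ v : Fin N → ℂ, ((nsq v + 1 : ℝ) : ℂ) ≠ 0 := by
      intro v
      have := nsq_nonneg v
      have h2 : (nsq v + 1 : ℝ) ≠ 0 := by positivity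
      exact_mod_cast h2
    have hn := nsq_continuous (N := N)
    refine Continuous.div ?_ ?_ h1
    · refine (by fun_prop : Continuous fun v : Fin N → ℂ => 2 * v i).add ?_
      by_cases h : i = i₀
      · simp only [if_pos h]
        exact Complex.continuous_ofReal.comp (hn.sub continuous_const)
      · simp only [if_neg h]
        exact continuous_const
    · exact Complex.continuous_ofReal.comp (hn.add continuous_const)
  · rw [tendsto_pi_nhds]
    intro i
    rw [tendsto_iff_norm_sub_tendsto_zero]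
    have hT := tendsto_nsq i₀
    have hlim : Tendsto (fun v : Fin N → ℂ => Real.sqrt (8 / (nsq v + 1))) (cocompact _) (𝓝 0) := by
      have h1 : Tendsto (fun v : Fin N → ℂ => 8 / (nsq v + 1)) (cocompact _) (𝓝 0) :=
        Tendsto.const_div_atTop (tendsto_atTop_add_const_right _ _ hT) 8
      have h2 := (Real.continuous_sqrt.tendsto 0).comp h1
      rw [Real.sqrt_zero] at h2
      exact h2
    refine squeeze_zero (fun v => norm_nonneg _) (fun v => ?_) hlim
    apply Real.le_sqrt_of_sq_le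
    have h0 := nsq_nonneg v
    have hne : ((nsq v + 1 : ℝ) : ℂ) ≠ 0 := by
      have h2 : (nsq v + 1 : ℝ) ≠ 0 := by positivity
      exact_mod_cast h2
    have h1 : st i₀ v i - (Pi.single i₀ (1 : ℂ) : Fin N → ℂ) i =
        (2 * v i - 2 * (if i = i₀ then 1 else 0)) / ((nsq v + 1 : ℝ) : ℂ) := by
      rw [eq_div_iff hne, sub_mul, st, div_mul_cancel₀ _ hne, Pi.single_apply]
      by_cases h : i = i₀
      · rw [if_pos h, if_pos h]
        push_cast
        ring
      · rw [if_neg h, if_neg h]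
        ring
    rw [h1, norm_div, div_pow, Complex.norm_real, Real.norm_eq_abs, sq_abs]
    have h2 : ‖2 * v i - 2 * (if i = i₀ then (1 : ℂ) else 0)‖ ≤ 2 * ‖v i‖ + 2 := by
      refine (norm_sub_le _ _).trans ?_
      rw [norm_mul, norm_mul]
      have : ‖(if i = i₀ then (1 : ℂ) else 0)‖ ≤ 1 := by
        split_ifs <;> simp
      have h3 : ‖(2 : ℂ)‖ = 2 := by norm_num
      rw [h3]
      linarith
    have h3 : ‖2 * v i - 2 * (if i = i₀ then (1 : ℂ) else 0)‖ ^ 2 ≤ 8 * (nsq v + 1) := by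
      have h4 := le_nsq v i
      have h5 : ‖2 * v i - 2 * (if i = i₀ then (1 : ℂ) else 0)‖ ^ 2 ≤ (2 * ‖v i‖ + 2) ^ 2 :=
        pow_le_pow_left₀ (norm_nonneg _) h2 2
      nlinarith [sq_nonneg (‖v i‖ - 1)]
    rw [div_le_div_iff₀ (by positivity) (by positivity)]
    nlinarith
  · intro z hz hne
    have h0 := re_lt i₀ hz hne
    have h1 : (1 - (z i₀).re : ℝ) ≠ 0 := by linarith
    have h1C : ((1 - (z i₀).re : ℝ) : ℂ) ≠ 0 := by exact_mod_cast h1
    constructor
    · rw [sti, if_pos rfl, Complex.div_ofReal_re]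
      simp
    · funext i
      have hn := nsq_sti i₀ hz hne
      have e1 : nsq (sti i₀ z) + 1 = 2 / (1 - (z i₀).re) := by
        rw [hn]
        field_simp
        ring
      have e2 : nsq (sti i₀ z) - 1 = 2 * (z i₀).re / (1 - (z i₀).re) := by
        rw [hn]
        field_simp
        ring
      rw [st, e1, e2, sti]
      push_cast at h1C ⊢
      by_cases h : i = i₀
      · rw [if_pos h, if_pos h]
        field_simp
        ring
      · rw [if_neg h, if_neg h]
        field_simp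
        ring
  · intro z hz
    have h0 := re_lt i₀ hz.1 hz.2
    have h1 : ((1 - (z i₀).re : ℝ) : ℂ) ≠ 0 := by
      have : (1 - (z i₀).re : ℝ) ≠ 0 := by linarith
      exact_mod_cast this
    apply ContinuousAt.continuousWithinAt
    rw [continuousAt_pi]
    intro i
    have c1 : Continuous fun z : Fin N → ℂ => ((1 - (z i₀).re : ℝ) : ℂ) := by fun_prop
    have c2 : Continuous fun z : Fin N → ℂ => z i := by fun_prop
    have c3 : Continuous fun z : Fin N → ℂ => ((z i₀).re : ℂ) := by fun_prop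
    refine ContinuousAt.div ?_ c1.continuousAt h1
    refine c2.continuousAt.sub ?_
    by_cases h : i = i₀
    · simp only [if_pos h]
      exact c3.continuousAt
    · simp only [if_neg h]
      exact continuousAt_const
  · apply tendsto_cocompact_of_nsq
    have h1 : (fun z : Fin N → ℂ => nsq (sti i₀ z)) =ᶠ[𝓝[Sp N \ {Pi.single i₀ 1}] (Pi.single i₀ 1)]
        fun z => (1 + (z i₀).re) / (1 - (z i₀).re) := by
      filter_upwards [self_mem_nhdsWithin] with z hz
      exact nsq_sti i₀ hz.1 hz.2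
    rw [tendsto_congr' h1]
    have h2 : Tendsto (fun z : Fin N → ℂ => 1 - (z i₀).re)
        (𝓝[Sp N \ {Pi.single i₀ 1}] (Pi.single i₀ 1)) (𝓝[>] 0) := by
      rw [tendsto_nhdsWithin_iff]
      constructor
      · have h3 : Continuous fun z : Fin N → ℂ => 1 - (z i₀).re := by fun_prop
        have h4 := h3.tendsto (Pi.single i₀ (1 : ℂ))
        simp only [Pi.single_eq_same, Complex.one_re, sub_self] at h4
        exact h4.mono_left nhdsWithin_le_nhds
      · filter_upwards [self_mem_nhdsWithin] with z hz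
        have := re_lt i₀ hz.1 hz.2
        simp only [mem_Ioi]
        linarith
    have h5 : Tendsto (fun z : Fin N → ℂ => (1 - (z i₀).re)⁻¹)
        (𝓝[Sp N \ {Pi.single i₀ 1}] (Pi.single i₀ 1)) atTop := tendsto_inv_nhdsGT_zero.comp h2
    have h6 : Tendsto (fun z : Fin N → ℂ => 1 + (z i₀).re)
        (𝓝[Sp N \ {Pi.single i₀ 1}] (Pi.single i₀ 1)) (𝓝 2) := by
      have h3 : Continuous fun z : Fin N → ℂ => 1 + (z i₀).re := by fun_prop
      have h4 := h3.tendsto (Pi.single i₀ (1 : ℂ))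
      simp only [Pi.single_eq_same, Complex.one_re] at h4
      norm_num at h4
      exact h4.mono_left nhdsWithin_le_nhds
    simp only [div_eq_mul_inv]
    exact h6.pos_mul_atTop (by norm_num) h5
  · intro ζ hζ hζ0 v
    constructor
    · funext i
      rw [st, st, nsq_mul ζ v hζ]
      by_cases h : i = i₀
      · rw [if_pos h, h, hζ0, one_mul, one_mul]
      · rw [if_neg h, add_zero, add_zero]
        ring
    · funext i
      rw [sti, sti]
      by_cases h : i = i₀
      · rw [if_pos h, h, hζ0, one_mul, if_pos rfl, one_mul]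
      · rw [if_neg h, if_neg h, sub_zero, sub_zero, hζ0, one_mul]
        ring

end Pool.Agent.Tate.Fi
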