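import Pool.Agent.Lib.Tate.G.Spec

set_option autoImplicit false

open Set Filter Topology
open scoped ZeroAtInfty

noncomputable section

namespace Pool.Agent.Tate.Fi

open Idx Toe Ko Cel Ext

private theorem Sv_ev {V J : Type} [Fintype J] (y : V) (P : Matrix J J ℂ)
    (h1 : P.IsHermitian) (h2 : P * P = P) (f : V → ℝ) :
    (Conf.single y P h1 h2).ev f = (f y : ℂ) • P := by
  unfold Conf.ev
  rw [finsum_eq_single _ y]
  · rw [Conf.single_self]
  · intro y' hy'
    rw [Conf.single_ne P h1 h2 hy', smul_zero]

private theorem Sv_ev0 {V J : Type} [Fintype J] (f : V → ℝ) :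
    (default : Conf V J).ev f = 0 := by
  unfold Conf.ev
  simp

theorem pSv (h1 : Cel.S_Ha) : S_Sv := by
  intro X W V J _ _ _ _ _ _ _ k P hP hP2 hk hk2
  refine (h1 (X × W) (Conf V J) default univ _).2 ⟨?_, ?_⟩
  · rw [continuousOn_univ, Conf.continuous_iff]
    intro f
    simp only [Sv_ev]
    exact (Complex.continuous_ofReal.comp (f.continuous.comp (hk.comp continuous_snd))).smul
      continuous_const
  · rw [principal_univ, inf_top_eq, Conf.tendsto_iff]
    intro f
    simp only [Sv_ev, Sv_ev0]
    have hs : Tendsto (Prod.snd : X × W → W) (cocompact (X × W)) (cocompact W) := by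
      rw [← Filter.coprod_cocompact, Filter.cocompact_eq_bot]
      unfold Filter.coprod
      rw [Filter.comap_bot, bot_sup_eq]
      exact tendsto_comap
    have hf : Tendsto (fun p : X × W => f (k p.2)) (cocompact (X × W)) (𝓝 0) :=
      (f.zero_at_infty'.comp (hk2.comp hs))
    have hf2 : Tendsto (fun p : X × W => ((f (k p.2) : ℝ) : ℂ)) (cocompact (X × W)) (𝓝 0) := by
      have h3 := (Complex.continuous_ofReal.tendsto 0).comp hf
      rw [Complex.ofReal_zero] at h3
      exact h3
    have h4 := hf2.smul (tendsto_const_nhds (x := P) (f := cocompact (X × W)))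
    rw [zero_smul] at h4
    exact h4

end Pool.Agent.Tate.Fi
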