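import Pool.Agent.Lib.Tate.G.Spec

/-!
# C42 (MP_071d69_gt), block G: complex coordinates
-/

set_option autoImplicit false

open Set Filter Topology

noncomputable section

namespace Pool.Agent.Tate.Fi

open Idx Toe Ko Cel Ext

namespace Th

/-! ### Real and complex coordinates -/

/-- complex coordinates from real ones, the first one purely imaginary -/
def cc {p : ℕ} (x : Option (Fin p × Bool) → ℝ) : Fin (p + 1) → ℂ :=
  Fin.cons (Complex.I * (x none : ℂ)) fun l =>
    (x (some (l, false)) : ℂ) + Complex.I * (x (some (l, true)) : ℂ)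

/-- the real coordinates -/
def rc {p : ℕ} (z : Fin (p + 1) → ℂ) : Option (Fin p × Bool) → ℝ
  | none => (z 0).im
  | some (l, false) => (z l.succ).re
  | some (l, true) => (z l.succ).im

/-- complex coordinates from pairs -/
def cc2 {h : ℕ} (x : Fin h × Bool → ℝ) : Fin h → ℂ := fun l =>
  (x (l, false) : ℂ) + Complex.I * (x (l, true) : ℂ)

/-- the real coordinates -/
def rc2 {h : ℕ} (z : Fin h → ℂ) : Fin h × Bool → ℝ
  | (l, false) => (z l).re
  | (l, true) => (z l).im

theorem rc_cc {p : ℕ} (x : Option (Fin p × Bool) → ℝ) (o : Option (Fin p × Bool)) :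
    rc (cc x) o = x o := by
  rcases o with _ | ⟨l, _ | _⟩
  · show ((cc x) 0).im = _
    unfold cc
    rw [Fin.cons_zero]
    simp
  · show ((cc x) l.succ).re = _
    unfold cc
    rw [Fin.cons_succ]
    simp
  · show ((cc x) l.succ).im = _
    unfold cc
    rw [Fin.cons_succ]
    simp

theorem cc_rc {p : ℕ} (z : Fin (p + 1) → ℂ) (hz : (z 0).re = 0) : cc (rc z) = z := by
  funext i
  refine Fin.cases ?_ (fun l => ?_) i
  · unfold cc
    rw [Fin.cons_zero]
    apply Complex.ext
    · simp [hz]
    · simp [rc]
  · unfold cc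
    rw [Fin.cons_succ]
    apply Complex.ext
    · simp [rc]
    · simp [rc]

theorem rc2_cc2 {h : ℕ} (x : Fin h × Bool → ℝ) (o : Fin h × Bool) : rc2 (cc2 x) o = x o := by
  rcases o with ⟨l, _ | _⟩
  · show ((cc2 x) l).re = _
    simp [cc2]
  · show ((cc2 x) l).im = _
    simp [cc2]

theorem cc2_rc2 {h : ℕ} (z : Fin h → ℂ) : cc2 (rc2 z) = z := by
  funext l
  apply Complex.ext
  · simp [rc2, cc2]
  · simp [rc2, cc2]

theorem cont_cc {p : ℕ} : Continuous (cc : (Option (Fin p × Bool) → ℝ) → Fin (p + 1) → ℂ) := by
  refine continuous_pi fun i => ?_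
  refine Fin.cases ?_ (fun l => ?_) i
  · simp only [cc, Fin.cons_zero]
    fun_prop
  · simp only [cc, Fin.cons_succ]
    fun_prop

theorem cont_rc {p : ℕ} : Continuous (rc : (Fin (p + 1) → ℂ) → Option (Fin p × Bool) → ℝ) := by
  refine continuous_pi fun o => ?_
  rcases o with _ | ⟨l, _ | _⟩
  · exact Complex.continuous_im.comp (continuous_apply _)
  · exact Complex.continuous_re.comp (continuous_apply _)
  · exact Complex.continuous_im.comp (continuous_apply _)

theorem cont_cc2 {h : ℕ} : Continuous (cc2 : (Fin h × Bool → ℝ) → Fin h → ℂ) := by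
  refine continuous_pi fun l => ?_
  simp only [cc2]
  fun_prop

theorem cont_rc2 {h : ℕ} : Continuous (rc2 : (Fin h → ℂ) → Fin h × Bool → ℝ) := by
  refine continuous_pi fun o => ?_
  rcases o with ⟨l, _ | _⟩
  · exact Complex.continuous_re.comp (continuous_apply _)
  · exact Complex.continuous_im.comp (continuous_apply _)

theorem cont_append {X : Type} [TopologicalSpace X] {m n : ℕ} {f : X → Fin m → ℂ}
    {g : X → Fin n → ℂ} (hf : Continuous f) (hg : Continuous g) :
    Continuous fun x => Fin.append (f x) (g x) := by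
  refine continuous_pi fun i => ?_
  refine Fin.addCases (fun i => ?_) (fun i => ?_) i
  · simp only [Fin.append_left]
    exact (continuous_apply i).comp hf
  · simp only [Fin.append_right]
    exact (continuous_apply i).comp hg

/-- a map with a continuous left inverse is proper -/
theorem proper {X Z : Type} [TopologicalSpace X] [TopologicalSpace Z] {f : X → Z} {g : Z → X}
    (S : Set X) (hg : Continuous g) (h : ∀ x ∈ S, g (f x) = x) :
    Tendsto f (cocompact X ⊓ 𝓟 S) (cocompact Z) := by
  intro s hs
  obtain ⟨K, hK, hKs⟩ := mem_cocompact.1 hs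
  rw [mem_map, mem_inf_principal]
  refine mem_cocompact.2 ⟨g '' K, hK.image hg, ?_⟩
  intro x hx hxS
  by_contra hcon
  have h1 : f x ∈ K := by
    by_contra h'
    exact hcon (hKs h')
  exact hx ⟨f x, h1, h x hxS⟩

/-! ### Sums and differences -/

section

variable {A : Type} {M : ℕ}

/-- the sums -/
def ssq (y : JJ A M → VV) : QQ A M → VV
  | Sum.inl a => (1 / 2 : ℝ) • (y (Sum.inl (a, false)) + y (Sum.inl (a, true)))
  | Sum.inr m => y (Sum.inr m)

/-- the differences -/
def tq (y : JJ A M → VV) (a : A) : VV :=
  (1 / 2 : ℝ) • (y (Sum.inl (a, false)) - y (Sum.inl (a, true)))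

/-- the inverse -/
def yq (s : QQ A M → VV) (t : A → VV) : JJ A M → VV
  | Sum.inl (a, false) => s (Sum.inl a) + t a
  | Sum.inl (a, true) => s (Sum.inl a) - t a
  | Sum.inr m => s (Sum.inr m)

theorem yq_sq (y : JJ A M → VV) : yq (ssq y) (tq y) = y := by
  funext j
  rcases j with ⟨a, _ | _⟩ | m
  · show (1 / 2 : ℝ) • (y (Sum.inl (a, false)) + y (Sum.inl (a, true))) +
      (1 / 2 : ℝ) • (y (Sum.inl (a, false)) - y (Sum.inl (a, true))) = _
    module
  · show (1 / 2 : ℝ) • (y (Sum.inl (a, false)) + y (Sum.inl (a, true))) -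
      (1 / 2 : ℝ) • (y (Sum.inl (a, false)) - y (Sum.inl (a, true))) = _
    module
  · rfl

theorem cont_sq : Continuous (ssq : (JJ A M → VV) → QQ A M → VV) := by
  refine continuous_pi fun q => ?_
  rcases q with a | m
  · simp only [ssq]
    fun_prop
  · simp only [ssq]
    fun_prop

theorem cont_tq : Continuous (tq : (JJ A M → VV) → A → VV) := by
  refine continuous_pi fun a => ?_
  simp only [tq]
  fun_prop

theorem cont_yq {X : Type} [TopologicalSpace X] {s : X → QQ A M → VV} {t : X → A → VV}
    (hs : Continuous s) (ht : Continuous t) : Continuous fun x => yq (s x) (t x) := by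
  refine continuous_pi fun j => ?_
  rcases j with ⟨a, _ | _⟩ | m
  · exact ((continuous_apply _).comp hs).add ((continuous_apply _).comp ht)
  · exact ((continuous_apply _).comp hs).sub ((continuous_apply _).comp ht)
  · exact (continuous_apply _).comp hs

/-! ### The coordinates -/

variable {h p a b : ℕ} (β : QQ A M ≃ Option (Fin p × Bool)) (E : Fin b ⊕ Fin a ≃ QQ A M)
  (α : A ≃ Fin h × Bool) (α' : A ≃ Fin (2 * h))

/-- the complex coordinates -/
def vv (y : JJ A M → VV) : Fin (Mc p b + wc a h) → ℂ :=
  Fin.append (Fin.append (cc fun o => (ssq y (β.symm o)).1) fun x => (ssq y (E (Sum.inl x))).2)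
    (Fin.append (Fin.append (fun x => (ssq y (E (Sum.inr x))).2)
      (cc2 fun o => (tq y (α.symm o)).1)) fun x => (tq y (α'.symm x)).2)

/-- the inverse -/
def ww (z : Fin (Mc p b + wc a h) → ℂ) : JJ A M → VV :=
  yq (fun q => (rc (fun i => z (Fin.castAdd _ (Fin.castAdd _ i))) (β q),
      Sum.elim (fun x => z (Fin.castAdd _ (Fin.natAdd _ x)))
        (fun x => z (Fin.natAdd _ (Fin.castAdd _ (Fin.castAdd _ x)))) (E.symm q)))
    fun c => (rc2 (fun x => z (Fin.natAdd _ (Fin.castAdd _ (Fin.natAdd _ x)))) (α c),
      z (Fin.natAdd _ (Fin.natAdd _ (α' c))))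

theorem ww_vv (y : JJ A M → VV) : ww β E α α' (vv β E α α' y) = y := by
  refine Eq.trans ?_ (yq_sq y)
  unfold ww
  congr 1
  · funext q
    refine Prod.ext ?_ ?_
    · simp only [vv, Fin.append_left]
      rw [rc_cc, Equiv.symm_apply_apply]
    · show Sum.elim _ _ (E.symm q) = (ssq y q).2
      obtain ⟨x, rfl⟩ := E.surjective q
      rw [Equiv.symm_apply_apply]
      rcases x with x | x
      · rw [Sum.elim_inl]
        simp only [vv, Fin.append_left, Fin.append_right]
      · rw [Sum.elim_inr]
        simp only [vv, Fin.append_left, Fin.append_right]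
  · funext c
    refine Prod.ext ?_ ?_
    · simp only [vv, Fin.append_left, Fin.append_right]
      rw [rc2_cc2, Equiv.symm_apply_apply]
    · simp only [vv, Fin.append_right]
      rw [Equiv.symm_apply_apply]

theorem cont_vv : Continuous (vv β E α α') := by
  unfold vv
  refine cont_append (cont_append (cont_cc.comp ?_) ?_) (cont_append (cont_append ?_
    (cont_cc2.comp ?_)) ?_)
  · exact continuous_pi fun o => continuous_fst.comp ((continuous_apply _).comp cont_sq)
  · exact continuous_pi fun o => continuous_snd.comp ((continuous_apply _).comp cont_sq)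
  · exact continuous_pi fun o => continuous_snd.comp ((continuous_apply _).comp cont_sq)
  · exact continuous_pi fun o => continuous_fst.comp ((continuous_apply _).comp cont_tq)
  · exact continuous_pi fun o => continuous_snd.comp ((continuous_apply _).comp cont_tq)

theorem cont_ww : Continuous (ww β E α α') := by
  have k1 : Continuous fun z : Fin (Mc p b + wc a h) → ℂ =>
      rc (fun i => z (Fin.castAdd (wc a h) (Fin.castAdd b i))) :=
    cont_rc.comp (continuous_pi fun i => continuous_apply (Fin.castAdd (wc a h) (Fin.castAdd b i)))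
  have k2 : Continuous fun z : Fin (Mc p b + wc a h) → ℂ =>
      rc2 (fun x => z (Fin.natAdd (Mc p b) (Fin.castAdd (2 * h) (Fin.natAdd a x)))) :=
    cont_rc2.comp (continuous_pi fun x =>
      continuous_apply (Fin.natAdd (Mc p b) (Fin.castAdd (2 * h) (Fin.natAdd a x))))
  unfold ww
  refine cont_yq (continuous_pi fun q => Continuous.prodMk ?_ ?_)
    (continuous_pi fun c => Continuous.prodMk ?_ ?_)
  · exact (continuous_apply (β q)).comp k1
  · rcases E.symm q with x | x
    · exact continuous_apply _
    · exact continuous_apply _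
  · exact (continuous_apply (α c)).comp k2
  · exact continuous_apply _

theorem vv_append (v₁ : Fin (p + 1) → ℂ) (v₂ : Fin b → ℂ) (v₃ : Fin a → ℂ) (v₄ : Fin h → ℂ)
    (v₅ : Fin (2 * h) → ℂ) (y : JJ A M → VV) (h1 : cc (fun o => (ssq y (β.symm o)).1) = v₁)
    (h2 : ∀ x, (ssq y (E (Sum.inl x))).2 = v₂ x) (h3 : ∀ x, (ssq y (E (Sum.inr x))).2 = v₃ x)
    (h4 : cc2 (fun o => (tq y (α.symm o)).1) = v₄) (h5 : ∀ x, (tq y (α'.symm x)).2 = v₅ x) :
    vv β E α α' y = Fin.append (Fin.append v₁ v₂) (Fin.append (Fin.append v₃ v₄) v₅) := by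
  unfold vv
  rw [h1, h4, funext h2, funext h3, funext h5]

/-- the motion of the points -/
theorem gy_false {G : Type} [Group G] (χ : G →* ℤˣ) (ψ : G →* Circle) (g : G) (hχ : χ g = -1)
    (hψ : (ψ g : ℂ) = Complex.I) (y : JJ A M → VV) (j : JJ A M) :
    gy χ ψ g y j = ((y ((tau A M).symm j)).1, Complex.I * (y ((tau A M).symm j)).2) := by
  unfold gy tz
  rw [hχ, hψ, if_neg (by decide)]

theorem sq_gy {G : Type} [Group G] (χ : G →* ℤˣ) (ψ : G →* Circle) (g : G) (hχ : χ g = -1)
    (hψ : (ψ g : ℂ) = Complex.I) (y : JJ A M → VV) (q : QQ A M) :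
    ssq (gy χ ψ g y) q = ((ssq y q).1, Complex.I * (ssq y q).2) := by
  rcases q with c | m
  · have e1 : (tau A M).symm (Sum.inl (c, false)) = Sum.inl (c, true) := rfl
    have e2 : (tau A M).symm (Sum.inl (c, true)) = Sum.inl (c, false) := rfl
    simp only [ssq]
    rw [gy_false χ ψ g hχ hψ, gy_false χ ψ g hχ hψ, e1, e2]
    refine Prod.ext ?_ ?_
    · simp only [Prod.smul_fst, Prod.fst_add, smul_eq_mul]
      ring
    · simp only [Prod.smul_snd, Prod.snd_add, Complex.real_smul]
      ring
  · have e1 : (tau A M).symm (Sum.inr m) = Sum.inr m := rfl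
    simp only [ssq]
    rw [gy_false χ ψ g hχ hψ, e1]

theorem tq_gy {G : Type} [Group G] (χ : G →* ℤˣ) (ψ : G →* Circle) (g : G) (hχ : χ g = -1)
    (hψ : (ψ g : ℂ) = Complex.I) (y : JJ A M → VV) (c : A) :
    tq (gy χ ψ g y) c = (-(tq y c).1, -Complex.I * (tq y c).2) := by
  have e1 : (tau A M).symm (Sum.inl (c, false)) = Sum.inl (c, true) := rfl
  have e2 : (tau A M).symm (Sum.inl (c, true)) = Sum.inl (c, false) := rfl
  simp only [tq]
  rw [gy_false χ ψ g hχ hψ, gy_false χ ψ g hχ hψ, e1, e2]
  refine Prod.ext ?_ ?_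
  · simp only [Prod.smul_fst, Prod.fst_sub, smul_eq_mul]
    ring
  · simp only [Prod.smul_snd, Prod.snd_sub, Complex.real_smul]
    ring

theorem vv_gy {G : Type} [Group G] (χ : G →* ℤˣ) (ψ : G →* Circle) (g : G) (hχ : χ g = -1)
    (hψ : (ψ g : ℂ) = Complex.I) (y : JJ A M → VV) :
    vv β E α α' (gy χ ψ g y) = fun i => zf p b a h i * vv β E α α' y i := by
  funext i
  unfold vv zf zM zw
  simp only [sq_gy χ ψ g hχ hψ, tq_gy χ ψ g hχ hψ]
  refine Fin.addCases (fun i => ?_) (fun i => ?_) i
  · rw [Fin.append_left, Fin.append_left, Fin.append_left]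
    refine Fin.addCases (fun i => ?_) (fun i => ?_) i
    · rw [Fin.append_left, Fin.append_left, Fin.append_left, one_mul]
    · rw [Fin.append_right, Fin.append_right, Fin.append_right]
  · rw [Fin.append_right, Fin.append_right, Fin.append_right]
    refine Fin.addCases (fun i => ?_) (fun i => ?_) i
    · rw [Fin.append_left, Fin.append_left, Fin.append_left]
      refine Fin.addCases (fun i => ?_) (fun i => ?_) i
      · rw [Fin.append_left, Fin.append_left, Fin.append_left]
      · rw [Fin.append_right, Fin.append_right, Fin.append_right]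
        unfold cc2
        push_cast
        ring
    · rw [Fin.append_right, Fin.append_right, Fin.append_right]

/-! ### The map `κ` -/

variable {d' : ℕ} (δ : Fin (2 * d') ≃ Fin d' × Bool)

/-- the map `κ` -/
def kk (v : Fin (Mc p b + d') → ℂ) : EuclideanSpace ℝ (Fin (2 * d')) × WW A M b :=
  (WithLp.toLp 2 fun i => rc2 (fun x => v (Fin.natAdd (Mc p b) x)) (δ i),
    (fun q => rc (fun i => v (Fin.castAdd d' (Fin.castAdd b i))) (β q),
      fun x => v (Fin.castAdd d' (Fin.natAdd (p + 1) x))))

/-- the inverse -/
def ki (w : EuclideanSpace ℝ (Fin (2 * d')) × WW A M b) : Fin (Mc p b + d') → ℂ :=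
  Fin.append (Fin.append (cc fun o => w.2.1 (β.symm o)) w.2.2) (cc2 fun o => w.1 (δ.symm o))

theorem ki_kk (v : Fin (Mc p b + d') → ℂ) (hv : (v (i0 p b d')).re = 0) :
    ki β δ (kk β δ v) = v := by
  have e1 : (fun o => (kk (A := A) (M := M) β δ v).2.1 (β.symm o)) =
      rc fun i => v (Fin.castAdd d' (Fin.castAdd b i)) := by
    funext o
    simp only [kk, Equiv.apply_symm_apply]
  have e2 : (fun o => (kk (A := A) (M := M) β δ v).1 (δ.symm o)) =
      rc2 fun x => v (Fin.natAdd (Mc p b) x) := by
    funext o
    show rc2 _ (δ (δ.symm o)) = _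
    rw [Equiv.apply_symm_apply]
  unfold ki
  rw [e1, e2, cc2_rc2, cc_rc _ hv]
  funext i
  refine Fin.addCases (fun i => ?_) (fun i => ?_) i
  · rw [Fin.append_left]
    refine Fin.addCases (fun i => ?_) (fun i => ?_) i
    · rw [Fin.append_left]
    · rw [Fin.append_right]
      rfl
  · rw [Fin.append_right]

theorem cont_kk : Continuous (kk (A := A) (M := M) (b := b) β δ) := by
  have k1 : Continuous fun v : Fin (Mc p b + d') → ℂ =>
      rc2 (fun x => v (Fin.natAdd (Mc p b) x)) :=
    cont_rc2.comp (continuous_pi fun x => continuous_apply _)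
  have k2 : Continuous fun v : Fin (Mc p b + d') → ℂ =>
      rc (fun i => v (Fin.castAdd d' (Fin.castAdd b i))) :=
    cont_rc.comp (continuous_pi fun x => continuous_apply _)
  unfold kk
  refine Continuous.prodMk ?_ (Continuous.prodMk ?_ ?_)
  · refine (PiLp.continuous_toLp 2 _).comp (continuous_pi fun i => ?_)
    exact (continuous_apply (δ i)).comp k1
  · exact continuous_pi fun q => (continuous_apply (β q)).comp k2
  · exact continuous_pi fun x => continuous_apply _

theorem cont_ki : Continuous (ki (A := A) (M := M) (b := b) β δ) := by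
  unfold ki
  refine cont_append (cont_append (cont_cc.comp ?_) ?_) (cont_cc2.comp ?_)
  · exact continuous_pi fun o => (continuous_apply _).comp (continuous_fst.comp continuous_snd)
  · exact continuous_snd.comp continuous_snd
  · refine continuous_pi fun o => ?_
    exact (continuous_apply (δ.symm o)).comp ((PiLp.continuous_ofLp 2 _).comp continuous_fst)

theorem kk_g (v : Fin (Mc p b + d') → ℂ) :
    kk (A := A) (M := M) β δ
      (fun i => Fin.append (zM p b) (fun _ : Fin d' => (-1 : ℂ)) i * v i) =
    (-(kk (A := A) (M := M) β δ v).1,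
      ((kk (A := A) (M := M) β δ v).2.1, fun x => Complex.I * (kk (A := A) (M := M) β δ v).2.2 x)) := by
  unfold kk zM
  refine Prod.ext ?_ (Prod.ext ?_ ?_)
  · simp only [Fin.append_right]
    ext i
    show rc2 _ (δ i) = - rc2 _ (δ i)
    rcases δ i with ⟨l, _ | _⟩
    · simp [rc2]
    · simp [rc2]
  · simp only [Fin.append_left, one_mul]
  · funext x
    simp only [Fin.append_left, Fin.append_right]

end

end Th

open Th in
theorem pTh : S_Th := by
  classical
  intro A _ _ M h p a b d' ε hε hA hM hb
  have hQ : Fintype.card (QQ A M) = 2 * p + 1 := by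
    rw [Fintype.card_sum, Fintype.card_fin, hA, hM]
  obtain ⟨β⟩ : Nonempty (QQ A M ≃ Option (Fin p × Bool)) := by
    refine Fintype.card_eq.1 ?_
    rw [hQ, Fintype.card_option, Fintype.card_prod, Fintype.card_fin, Fintype.card_bool]
    ring
  obtain ⟨α⟩ : Nonempty (A ≃ Fin h × Bool) := by
    refine Fintype.card_eq.1 ?_
    rw [hA, Fintype.card_prod, Fintype.card_fin, Fintype.card_bool]
    ring
  obtain ⟨α'⟩ : Nonempty (A ≃ Fin (2 * h)) := by
    refine Fintype.card_eq.1 ?_
    rw [hA, Fintype.card_fin]
  obtain ⟨δ⟩ : Nonempty (Fin (2 * d') ≃ Fin d' × Bool) := by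
    refine Fintype.card_eq.1 ?_
    rw [Fintype.card_prod, Fintype.card_fin, Fintype.card_bool, Fintype.card_fin]
    ring
  obtain ⟨E, hE⟩ : ∃ E : Fin b ⊕ Fin a ≃ QQ A M, ∀ x, E (Sum.inl x) = ε x := by
    obtain ⟨e'⟩ : Nonempty (Fin a ≃ ((Set.range ε)ᶜ : Set (QQ A M))) := by
      refine Fintype.card_eq.1 ?_
      rw [Fintype.card_compl_set, Set.card_range_of_injective hε, hQ, Fintype.card_fin,
        Fintype.card_fin]
      omega
    refine ⟨(Equiv.sumCongr (Equiv.ofInjective ε hε) e').trans (Equiv.Set.sumCompl (Set.range ε)),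
      fun x => ?_⟩
    rfl
  refine ⟨vv β E α α', kk β δ, cont_vv β E α α', ?_, ?_, ?_, cont_kk β δ, ?_, ?_, ?_⟩
  · have h1 := proper (f := vv β E α α') univ (cont_ww β E α α') fun y _ => ww_vv β E α α' y
    rwa [principal_univ, inf_top_eq] at h1
  · intro y
    unfold vv i0
    rw [Fin.append_left, Fin.append_left]
    unfold cc
    rw [Fin.cons_zero]
    simp
  · intro G _ χ ψ g hχ hψ y
    exact vv_gy β E α α' χ ψ g hχ hψ y
  · exact proper _ (cont_ki β δ) fun v hv => ki_kk β δ v hv
  · intro v
    exact kk_g β δ v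
  · intro v' hv'
    constructor
    · unfold kk
      simp only [Fin.append_right]
      ext i
      show rc2 _ (δ i) = 0
      rcases δ i with ⟨l, _ | _⟩
      · simp [rc2]
      · simp [rc2]
    · set u : QQ A M → ℝ := (kk (A := A) (M := M) β δ (Fin.append v' 0)).2.1 with hu
      set z : Fin b → ℂ := (kk (A := A) (M := M) β δ (Fin.append v' 0)).2.2 with hz
      have hu' : ∀ q, u q = rc (fun i => v' (Fin.castAdd b i)) (β q) := by
        intro q
        simp only [hu, kk, Fin.append_left]
      have hz' : ∀ x, z x = v' (Fin.natAdd (p + 1) x) := by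
        intro x
        simp only [hz, kk, Fin.append_left]
      have hsq : ∀ q, ssq (embb ε (u, z)) q = (u q, ∑ x, if ε x = q then z x else 0) := by
        intro q
        rcases q with c | m
        · have e1 : prj A M (Sum.inl (c, false)) = Sum.inl c := rfl
          have e2 : prj A M (Sum.inl (c, true)) = Sum.inl c := rfl
          simp only [ssq, embb]
          rw [e1, e2]
          refine Prod.ext ?_ ?_
          · simp only [Prod.smul_fst, Prod.fst_add, smul_eq_mul]
            ring
          · simp only [Prod.smul_snd, Prod.snd_add, Complex.real_smul]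
            push_cast
            ring
        · rfl
      have htq : ∀ c, tq (embb ε (u, z)) c = 0 := by
        intro c
        have e1 : prj A M (Sum.inl (c, false)) = Sum.inl c := rfl
        have e2 : prj A M (Sum.inl (c, true)) = Sum.inl c := rfl
        simp only [tq, embb]
        rw [e1, e2, sub_self, smul_zero]
      have hp : ((kk (A := A) (M := M) β δ (Fin.append v' 0)).2) = (u, z) := rfl
      rw [hp, vv_append β E α α' (fun i => v' (Fin.castAdd b i))
        (fun x => v' (Fin.natAdd (p + 1) x)) 0 0 0 (embb ε (u, z))]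
      · funext i
        refine Fin.addCases (fun i => ?_) (fun i => ?_) i
        · rw [Fin.append_left, Fin.append_left]
          refine Fin.addCases (fun i => ?_) (fun i => ?_) i
          · rw [Fin.append_left]
          · rw [Fin.append_right]
        · rw [Fin.append_right, Fin.append_right]
          refine Fin.addCases (fun i => ?_) (fun i => ?_) i
          · rw [Fin.append_left]
            refine Fin.addCases (fun i => ?_) (fun i => ?_) i
            · rw [Fin.append_left]
              rfl
            · rw [Fin.append_right]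
              rfl
          · rw [Fin.append_right]
            rfl
      · have e1 : (fun o => (ssq (embb ε (u, z)) (β.symm o)).1) =
            rc fun i => v' (Fin.castAdd b i) := by
          funext o
          rw [hsq]
          show u (β.symm o) = _
          rw [hu', Equiv.apply_symm_apply]
        rw [e1]
        exact cc_rc _ hv'
      · intro x
        rw [hsq, hE, ← hz']
        show (∑ x', if ε x' = ε x then z x' else 0) = z x
        rw [Finset.sum_eq_single x]
        · rw [if_pos rfl]
        · intro x' _ hx'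
          rw [if_neg fun h => hx' (hε h)]
        · intro h
          exact absurd (Finset.mem_univ x) h
      · intro x
        rw [hsq]
        show (∑ x', if ε x' = E (Sum.inr x) then z x' else 0) = 0
        refine Finset.sum_eq_zero fun x' _ => ?_
        rw [if_neg]
        intro h
        rw [← hE] at h
        exact absurd (E.injective h) (by simp)
      · funext l
        simp [cc2, htq]
      · intro x
        rw [htq]
        rfl

end Pool.Agent.Tate.Fi
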