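import Pool.Agent.Lib.Tate.G.Spec

/-!
# C42 (MP_071d69_gt), block G: continuity of the composition
-/

set_option autoImplicit false

open Set Filter Topology
open scoped OnePoint

noncomputable section

namespace Pool.Agent.Tate.Fi

open Cel

theorem pYc : S_Yc := by
  intro Z Z' Y E _ _ _ _ _ _ y0 F' Ψ S e q hF hΨ hq hqe
  have hset : insert ∞ ((fun z : Z => (z : OnePoint Z)) '' univ) = (univ : Set (OnePoint Z)) := by
    ext p
    induction p using OnePoint.rec with
    | infty => simp
    | coe z => simp
  have hc : Continuous (hat y0 F') := by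
    rw [← continuousOn_univ, ← hset]
    exact hF
  have hF' : Continuous F' := hc.comp OnePoint.continuous_coe
  have hinf : Tendsto F' (cocompact Z) (𝓝 y0) := by
    rw [← coclosedCompact_eq_cocompact]
    exact (hc.tendsto ∞).comp OnePoint.tendsto_coe_infty
  intro z hz
  by_cases h : z = e
  · subst h
    rw [← continuousWithinAt_sdiff_self]
    have h1 : Tendsto (fun w => Ψ (F' (q w))) (𝓝[S \ {z}] z) (𝓝 (Ψ y0)) :=
      (hΨ.tendsto y0).comp (hinf.comp hqe)
    unfold ContinuousWithinAt
    simp only [if_true]
    refine h1.congr' ?_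
    filter_upwards [self_mem_nhdsWithin] with w hw
    rw [if_neg (show ¬ w = z from hw.2)]
  · have h1 : ContinuousWithinAt (fun w => Ψ (F' (q w))) (S \ {e}) z :=
      (hΨ.comp hF').continuousAt.comp_continuousWithinAt (hq z ⟨hz, h⟩)
    have h2 : S \ {e} ∈ 𝓝[S] z :=
      inter_mem self_mem_nhdsWithin
        (mem_nhdsWithin_of_mem_nhds (isOpen_compl_singleton.mem_nhds h))
    have h3 : ContinuousWithinAt (fun w => Ψ (F' (q w))) S z :=
      h1.mono_of_mem_nhdsWithin h2
    refine h3.congr_of_eventuallyEq ?_ ?_
    · filter_upwards [h2] with w hw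
      rw [if_neg (show ¬ w = e from hw.2)]
    · rw [if_neg h]

end Pool.Agent.Tate.Fi
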