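import Pool.Agent.Lib.Tate.G.Spec
import Pool.Agent.Lib.Tate.K.Ca
import Pool.Agent.Lib.Tate.K.C1

set_option autoImplicit false

open Set Filter Topology

noncomputable section

namespace Pool.Agent.Tate.Fi

open Idx Toe Ko Cel Ext

namespace YfAux

theorem zM_pow (p b : ℕ) (i : Fin (Mc p b)) : zM p b i ^ 4 = 1 := by
  unfold zM
  refine Fin.addCases (fun i => ?_) (fun i => ?_) i
  · rw [Fin.append_left]; norm_num
  · rw [Fin.append_right]; exact Complex.I_pow_four

theorem zw_pow (a h : ℕ) (i : Fin (wc a h)) : zw a h i ^ 4 = 1 := by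
  unfold zw
  refine Fin.addCases (fun i => ?_) (fun i => ?_) i
  · rw [Fin.append_left]
    refine Fin.addCases (fun i => ?_) (fun i => ?_) i
    · rw [Fin.append_left]; exact Complex.I_pow_four
    · rw [Fin.append_right]; norm_num
  · rw [Fin.append_right]
    rw [neg_pow, Complex.I_pow_four]
    norm_num

theorem zw_ne (a h : ℕ) (i : Fin (wc a h)) : zw a h i ≠ 1 := by
  unfold zw
  refine Fin.addCases (fun i => ?_) (fun i => ?_) i
  · rw [Fin.append_left]
    refine Fin.addCases (fun i => ?_) (fun i => ?_) i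
    · rw [Fin.append_left]
      intro h
      have := congrArg Complex.re h
      simp at this
    · rw [Fin.append_right]
      norm_num
  · rw [Fin.append_right]
    intro h
    have := congrArg Complex.re h
    simp at this

theorem zf_pow (p b a h : ℕ) (i : Fin (Mc p b + wc a h)) : zf p b a h i ^ 4 = 1 := by
  unfold zf
  refine Fin.addCases (fun i => ?_) (fun i => ?_) i
  · rw [Fin.append_left]; exact zM_pow p b i
  · rw [Fin.append_right]; exact zw_pow a h i

theorem zM_zero (p b : ℕ) : zM p b (Fin.castAdd b 0) = 1 := by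
  unfold zM
  rw [Fin.append_left]

theorem zf_i0 (p b a h : ℕ) : zf p b a h (i0 p b (wc a h)) = 1 := by
  unfold zf i0
  rw [Fin.append_left]
  exact zM_zero p b

theorem nrm4 {x : ℂ} (h : x ^ 4 = 1) : ‖x‖ = 1 := by
  have h1 : ‖x‖ ^ 4 = 1 := by rw [← norm_pow, h, norm_one]
  exact (pow_eq_one_iff_of_nonneg (norm_nonneg _) (by norm_num)).1 h1

theorem nI : ‖(1 : ℂ) - (Complex.I)⁻¹‖ = Real.sqrt 2 := by
  rw [Complex.inv_I, Complex.norm_def]
  congr 1
  rw [Complex.normSq_apply]
  simp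
  norm_num

theorem nmI : ‖(1 : ℂ) - (-Complex.I)⁻¹‖ = Real.sqrt 2 := by
  rw [← neg_inv, Complex.inv_I, Complex.norm_def]
  congr 1
  rw [Complex.normSq_apply]
  simp
  norm_num

theorem nm1 : ‖(1 : ℂ) - (-1 : ℂ)⁻¹‖ = 2 := by
  norm_num

theorem prod_zw (a h : ℕ) : ∏ k : Fin (wc a h), ‖1 - (zw a h k)⁻¹‖ =
    Real.sqrt 2 ^ a * 2 ^ h * Real.sqrt 2 ^ (2 * h) := by
  unfold zw
  rw [Fin.prod_univ_add]
  congr 1
  · rw [Fin.prod_univ_add]
    congr 1
    · simp only [Fin.append_left, nI]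
      simp
    · simp only [Fin.append_left, Fin.append_right, nm1]
      simp
  · simp only [Fin.append_right, nmI]
    simp

theorem sum_single {N : ℕ} (i₀ : Fin N) : ∑ i, ‖(Pi.single i₀ (1 : ℂ) : Fin N → ℂ) i‖ ^ 2 = 1 := by
  rw [Finset.sum_eq_single i₀]
  · simp
  · intro i _ hi
    simp [Pi.single_eq_of_ne hi]
  · intro h
    exact absurd (Finset.mem_univ _) h

theorem cj_default {Y J : Type} [Fintype J] [DecidableEq J] (U : Matrix J J ℂ)
    (hU : U.conjTranspose * U = 1) : Conf.cj U hU (default : Conf Y J) = default := by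
  apply Conf.eq_default
  intro y
  rw [Conf.cj_P, Conf.default_P, mul_zero, zero_mul]

/-- `gy g` as a bijection. -/
def gyE {G : Type} [Group G] (χ : G →* ℤˣ) (ψ : G →* Circle) {A : Type} {M : ℕ} (g : G) :
    (JJ A M → VV) ≃ (JJ A M → VV) where
  toFun := gy χ ψ g
  invFun y := fun j => ((y (tz A M (χ g) j)).1, ((ψ g)⁻¹ : ℂ) * (y (tz A M (χ g) j)).2)
  left_inv y := by
    funext j
    unfold gy
    simp
  right_inv y := by
    funext j
    unfold gy
    simp

theorem append_single (p b n : ℕ) : Fin.append (Pi.single (Fin.castAdd b 0) 1 : Fin (Mc p b) → ℂ)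
    (0 : Fin n → ℂ) = Pi.single (i0 p b n) 1 := by
  funext i
  refine Fin.addCases (fun i => ?_) (fun i => ?_) i
  · rw [Fin.append_left]
    by_cases hi : i = Fin.castAdd b 0
    · rw [hi, Pi.single_eq_same]
      exact (Pi.single_eq_same (M := fun _ => ℂ) (i0 p b n) (1 : ℂ)).symm
    · rw [Pi.single_eq_of_ne hi, Pi.single_eq_of_ne]
      intro h
      exact hi (Fin.castAdd_injective _ _ h)
  · rw [Fin.append_right, Pi.single_eq_of_ne]
    · rfl
    · intro h
      have := congrArg Fin.val h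
      unfold i0 at this
      simp at this

theorem cl_self {N : ℕ} (e : Fin N → ℂ) (he : ∑ i, ‖e i‖ ^ 2 = 1) : cl e * cl e = 1 := by
  rw [(pC1 pCa N e).1, he]
  simp

theorem phF_self {N : ℕ} {L : Type} [DecidableEq L] (L₀ : Finset L) (e : Fin N → ℂ)
    (he : ∑ i, ‖e i‖ ^ 2 = 1) : (1 : Matrix (L × Ev N) (L × Ev N) ℂ) = phF L₀ e e := by
  funext p q
  unfold phF
  rw [cl_self e he]
  by_cases h1 : p.1 = q.1
  · rw [if_pos h1]
    by_cases h2 : p.2 = q.2
    · rw [Prod.ext h1 h2, Matrix.one_apply_eq, Matrix.one_apply_eq, if_pos rfl]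
      split_ifs <;> rfl
    · rw [Matrix.one_apply_ne (fun h => h2 (congrArg Prod.snd h)), if_neg h2,
        Matrix.one_apply_ne (fun h => h2 (Subtype.ext h))]
      simp
  · rw [if_neg h1, Matrix.one_apply_ne (fun h => h1 (congrArg Prod.fst h))]

theorem kron_phF (A : Type) [Fintype A] [DecidableEq A] (M k : ℕ) {N : ℕ} (e z : Fin N → ℂ)
    (XE : Matrix (Ev N) (Ev N) ℂ) (hXE : XE = fun I I' => (cl e * cl z) I.1 I'.1) :
    1 + Matrix.kroneckerMap (fun x y => x * y) (Pk A M k) (XE - 1) =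
    phF (L0 A M k) e z := by
  classical
  funext p q
  rw [Matrix.add_apply, Matrix.kroneckerMap_apply, Matrix.sub_apply, hXE]
  have hP : Pk A M k p.1 q.1 = if p.1 = q.1 then (if q.1 ∈ L0 A M k then 1 else 0) else 0 := by
    unfold Pk
    rw [Matrix.diagonal_apply]
    by_cases h1 : p.1 = q.1
    · rw [if_pos h1, if_pos h1, h1]
      unfold L0
      congr 1
      simp
    · rw [if_neg h1, if_neg h1]
  rw [hP]
  unfold phF
  by_cases h1 : p.1 = q.1
  · rw [if_pos h1, if_pos h1]
    have h2 : (1 : Matrix ((JJ A M → ZMod 4) × Ev N) ((JJ A M → ZMod 4) × Ev N) ℂ) p q =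
        (1 : Matrix (Ev N) (Ev N) ℂ) p.2 q.2 := by
      rw [Matrix.one_apply, Matrix.one_apply]
      congr 1
      exact propext ⟨fun h => congrArg Prod.snd h, fun h => Prod.ext h1 h⟩
    rw [h2]
    split_ifs with h3 h4
    · ring
    · rw [Matrix.one_apply, if_pos h4]
      ring
    · rw [Matrix.one_apply, if_neg h4]
      ring
  · rw [if_neg h1, if_neg h1, Matrix.one_apply_ne (fun h => h1 (congrArg Prod.fst h))]
    ring

end YfAux

open YfAux in
theorem pYf (h1 : Ko.S_Fn) (h2 : S_P1) (h3 : S_P2) (h4 : S_P3) (h5 : S_P4) (h6 : S_St)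
    (h7 : S_Sa) (h8 : S_Th) (h9 : S_Yx) (h10 : S_Yc) (h11 : S_Yl) : S_Yf := by
  intro G _ χ ψ g hχ hψ A _ _ M k h p a b d' ε F' hε hcard hpar hba hk1 hkM hV h0 heq
  obtain ⟨v, κ, hvc, hvp, hvre, hveq, hκc, hκp, hκeq, hκr⟩ := h8 A M h p a b d' ε hε hcard hpar hba
  obtain ⟨hL0, U, hU, μ, hμ4, hμ1, hcjc, hcjs, hcjeq⟩ := h11 A M k hkM
  obtain ⟨⟨X', hXX'⟩, hXc, hXl, hXeq⟩ := h9 (JJ A M → VV) _ (i0 p b (wc a h)) v hvc hvp hvre
  obtain ⟨hSt1, ⟨hSt2a, hSt2b⟩, hSt3, ⟨hSt4a, hSt4b⟩, hSt5⟩ := h6 (Mc p b + d') (i0 p b d')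
  obtain ⟨-, -, hSM3, -, -⟩ := h6 (Mc p b) (Fin.castAdd b 0)
  set X := XX (i0 p b (wc a h)) v with hX
  set Ψ : CW (JJ A M) → Matrix ((JJ A M → ZMod 4) × Ev (Mc p b + wc a h))
    ((JJ A M → ZMod 4) × Ev (Mc p b + wc a h)) ℂ := fun c => Ps X (Conf.cj U hU c) with hΨ
  have hΨ0 : Ψ default = 1 := by
    rw [hΨ]
    show Ps X (Conf.cj U hU default) = 1
    rw [cj_default]
    exact (h4 _ _ _ X).1
  have hΨc : Continuous Ψ := (h3 (JJ A M → VV) (JJ A M → ZMod 4) (Ev (Mc p b + wc a h)) X hXc hXl).comp hcjc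
  have hΨdet : ∀ c, (Ψ c).det ≠ 0 := by
    intro c hdet
    have := h2 (JJ A M → VV) (JJ A M → ZMod 4) (Ev (Mc p b + wc a h)) X X' (Conf.cj U hU c) hXX'
    have h' := congrArg Matrix.det this
    rw [Matrix.det_mul, Matrix.det_one] at h'
    rw [show (Ps X (Conf.cj U hU c)).det = 0 from hdet, zero_mul] at h'
    exact zero_ne_one h'
  classical
  set e : Fin (Mc p b + d') → ℂ := Pi.single (i0 p b d') 1 with he
  set F : (Fin (Mc p b + d') → ℂ) → Matrix ((JJ A M → ZMod 4) × Ev (Mc p b + wc a h))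
    ((JJ A M → ZMod 4) × Ev (Mc p b + wc a h)) ℂ := fun z =>
      if z = e then Ψ default else Ψ (F' (κ (sti (i0 p b d') z))) with hF
  -- the character on the source
  set zt : Fin (Mc p b + d') → ℂ := Fin.append (zM p b) (fun _ : Fin d' => (-1 : ℂ)) with hzt
  have hzt0 : zt (i0 p b d') = 1 := by
    rw [hzt]
    unfold i0
    rw [Fin.append_left]
    exact zM_zero p b
  have hztn : ∀ i, ‖zt i‖ = 1 := by
    intro i
    rw [hzt]
    refine Fin.addCases (fun i => ?_) (fun i => ?_) i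
    · rw [Fin.append_left]
      exact nrm4 (zM_pow p b i)
    · rw [Fin.append_right]
      norm_num
  have hzte : (fun i => zt i * e i) = e := by
    funext i
    by_cases hi : i = i0 p b d'
    · rw [hi, hzt0, one_mul]
    · rw [he, Pi.single_eq_of_ne hi, mul_zero]
  have hztinj : ∀ z : Fin (Mc p b + d') → ℂ, (fun i => zt i * z i) = e ↔ z = e := by
    intro z
    constructor
    · intro hz
      funext i
      have h1 : zt i * z i = zt i * e i := by
        have h2 : zt i * z i = e i := congrFun hz i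
        have h3 : zt i * e i = e i := congrFun hzte i
        rw [h2, h3]
      have h0 : zt i ≠ 0 := by
        rw [← norm_pos_iff, hztn i]
        exact one_pos
      exact mul_left_cancel₀ h0 h1
    · intro hz
      rw [hz, hzte]
  have hFc : ContinuousOn F (Sp (Mc p b + d')) := by
    have hq1 : ContinuousOn (fun z => κ (sti (i0 p b d') z)) (Sp (Mc p b + d') \ {e}) :=
      hκc.comp_continuousOn hSt4a
    have hq2 : Tendsto (fun z => κ (sti (i0 p b d') z)) (𝓝[Sp (Mc p b + d') \ {e}] e)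
        (cocompact _) := by
      refine hκp.comp (tendsto_inf.2 ⟨hSt4b, ?_⟩)
      rw [tendsto_principal]
      filter_upwards [self_mem_nhdsWithin] with z hz
      exact (hSt3 z hz.1 hz.2).1
    have := h10 _ _ _ _ (default : CW (JJ A M)) F' Ψ (Sp (Mc p b + d')) e
      (fun z => κ (sti (i0 p b d') z)) hV hΨc hq1 hq2
    refine this.congr fun z _ => ?_
    by_cases hz : z = e
    · exact (if_pos hz).trans (if_pos hz).symm
    · exact (if_neg hz).trans (if_neg hz).symm
  have hFe : ∀ z, z = e → F z = Ψ default := fun z hz => if_pos hz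
  have hFn : ∀ z, ¬ z = e → F z = Ψ (F' (κ (sti (i0 p b d') z))) := fun z hz => if_neg hz
  have hFdet : ∀ z ∈ Sp (Mc p b + d'), (F z).det ≠ 0 := by
    intro z _
    by_cases hz : z = e
    · rw [hFe z hz]
      exact hΨdet _
    · rw [hFn z hz]
      exact hΨdet _
  have hchi : ∀ q : (JJ A M → ZMod 4) × Ev (Mc p b + wc a h),
      chE (fun l => (μ l)⁻¹) (zf p b a h) q = (μ q.1)⁻¹ * chc (zf p b a h) q.2.1 := fun q => rfl
  have hΨeq : ∀ (c : CW (JJ A M)) (q r : (JJ A M → ZMod 4) × Ev (Mc p b + wc a h)),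
      Ψ ((actW χ ψ A M).a g c) q r * chE (fun l => (μ l)⁻¹) (zf p b a h) q =
        chE (fun l => (μ l)⁻¹) (zf p b a h) r * Ψ c q r := by
    intro c q r
    rw [hchi, hchi]
    exact h5 (JJ A M → VV) (JJ A M → ZMod 4) (Ev (Mc p b + wc a h)) X (gyE χ ψ g)
      (Conf.cj U hU c) (Conf.cj U hU ((actW χ ψ A M).a g c)) μ (fun I => chc (zf p b a h) I.1)
      (fun l => nrm4 (hμ4 l)) (fun y l l' => hcjeq G χ ψ g hχ hψ c y l l')
      (fun y I I' => hXeq (zf p b a h) (zf_pow p b a h) (zf_i0 p b a h) y (gy χ ψ g y)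
        (hveq G χ ψ g hχ hψ y) I I') q r
  have hFeq : EqF zt (chE (fun l => (μ l)⁻¹) (zf p b a h)) F := by
    intro z hz q r
    by_cases hze : z = e
    · have e1 : (fun i => zt i * z i) = e := (hztinj z).2 hze
      rw [hFe _ e1, hFe _ hze, hΨ0]
      by_cases hqr : q = r
      · rw [hqr, mul_comm]
      · rw [Matrix.one_apply_ne hqr, zero_mul, mul_zero]
    · have e1 : ¬ (fun i => zt i * z i) = e := fun h => hze ((hztinj z).1 h)
      rw [hFn _ e1, hFn _ hze, (hSt5 zt hztn hzt0 z).2, hκeq, ← hΨeq]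
      congr 3
      have := heq (κ (sti (i0 p b d') z)).1 (κ (sti (i0 p b d') z)).2
      have hact : (actU ψ A M b).a g (κ (sti (i0 p b d') z)).2 =
          ((κ (sti (i0 p b d') z)).2.1, fun x => Complex.I * (κ (sti (i0 p b d') z)).2.2 x) := by
        show (_, fun x => (ψ g : ℂ) * _) = _
        rw [hψ]
        rfl
      rw [hact] at this
      exact this
  have hap : ∀ z : Fin (Mc p b) → ℂ, Fin.append z (0 : Fin d' → ℂ) = e ↔
      z = Pi.single (Fin.castAdd b 0) 1 := by
    intro z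
    constructor
    · intro hz
      funext i
      have h1 := congrFun hz (Fin.castAdd d' i)
      rw [Fin.append_left, he] at h1
      rw [h1]
      by_cases hi : i = Fin.castAdd b 0
      · rw [hi, Pi.single_eq_same]
        exact Pi.single_eq_same (M := fun _ => ℂ) (i0 p b d') (1 : ℂ)
      · rw [Pi.single_eq_of_ne hi, Pi.single_eq_of_ne]
        intro h
        exact hi (Fin.castAdd_injective _ _ h)
    · intro hz
      funext i
      refine Fin.addCases (fun i => ?_) (fun i => ?_) i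
      · rw [Fin.append_left, hz, he]
        by_cases hi : i = Fin.castAdd b 0
        · rw [hi, Pi.single_eq_same]
          exact (Pi.single_eq_same (M := fun _ => ℂ) (i0 p b d') (1 : ℂ)).symm
        · rw [Pi.single_eq_of_ne hi, Pi.single_eq_of_ne]
          intro h
          exact hi (Fin.castAdd_injective _ _ h)
      · rw [Fin.append_right, he, Pi.single_eq_of_ne]
        · rfl
        · intro h
          have := congrArg Fin.val h
          unfold i0 at this
          simp at this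
  have hFr : ∀ z ∈ Sp (Mc p b), F (Fin.append z (0 : Fin d' → ℂ)) =
      phF (L0 A M k) (Pi.single (i0 p b (wc a h)) 1) (Fin.append z (0 : Fin (wc a h) → ℂ)) := by
    intro z hz
    by_cases hze : z = Pi.single (Fin.castAdd b 0) 1
    · rw [hFe _ ((hap z).2 hze), hΨ0, hze, append_single, phF_self _ _ (sum_single _)]
    · have hn : ¬ Fin.append z (0 : Fin d' → ℂ) = e := fun h => hze ((hap z).1 h)
      obtain ⟨hre, hst⟩ := hSM3 z hz hze
      have hs : sti (i0 p b d') (Fin.append z (0 : Fin d' → ℂ)) =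
          Fin.append (sti (Fin.castAdd b 0) z) 0 := (h7 (Mc p b) d' (Fin.castAdd b 0) z).2
      obtain ⟨hk0, hkv⟩ := hκr (sti (Fin.castAdd b 0) z) hre
      rw [hFn _ hn, hs]
      have hp : κ (Fin.append (sti (Fin.castAdd b 0) z) 0) =
          (0, (κ (Fin.append (sti (Fin.castAdd b 0) z) 0)).2) := Prod.ext hk0 rfl
      rw [hp, h0]
      show Ps X (Conf.cj U hU _) = _
      rw [hcjs, (h4 _ _ _ X).2]
      have hXe : X (embb ε (κ (Fin.append (sti (Fin.castAdd b 0) z) 0)).2) = fun I I' =>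
          (cl (Pi.single (i0 p b (wc a h)) 1) *
            cl (Fin.append z (0 : Fin (wc a h) → ℂ))) I.1 I'.1 := by
        rw [hX]
        unfold XX
        rw [hkv]
        have := (h7 (Mc p b) (wc a h) (Fin.castAdd b 0) (sti (Fin.castAdd b 0) z)).1
        rw [hst] at this
        funext I I'
        rw [← this]
        rfl
      exact kron_phF A M k _ _ _ hXe
  have key := h1 (Mc p b) (wc a h) d' (JJ A M → ZMod 4) (L0 A M k) (fun l => (μ l)⁻¹)
    (zf p b a h) (Pi.single (i0 p b (wc a h)) 1) (fun _ => (-1 : ℂ)) F (by unfold Mc; omega)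
    (Finset.card_pos.1 (by rw [hL0]; omega)) (zf_pow p b a h) (fun _ => by norm_num)
    (fun l => by rw [inv_pow, hμ4 l, inv_one]) (fun l hl => by rw [hμ1 l hl, inv_one])
    (fun j => by
      unfold zf
      rw [Fin.append_right]
      exact zw_ne a h j) (sum_single _)
    (fun i => by
      by_cases hi : i = i0 p b (wc a h)
      · rw [hi, zf_i0, one_mul]
      · rw [Pi.single_eq_of_ne hi, mul_zero]) hFc (by
      have : (fun i => zf p b a h (Fin.castAdd (wc a h) i)) = zM p b := by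
        funext i
        unfold zf
        rw [Fin.append_left]
      rw [this]
      exact hFeq) hFdet hFr
  have e1 : ∏ _i : Fin d', ‖(1 : ℂ) - (-1)‖ = 2 ^ d' := by
    rw [Finset.prod_const, Finset.card_univ, Fintype.card_fin]
    norm_num
  have e2 : ∏ j : Fin (wc a h), ‖1 - (zf p b a h (Fin.natAdd (Mc p b) j))⁻¹‖ =
      Real.sqrt 2 ^ a * 2 ^ h * Real.sqrt 2 ^ (2 * h) := by
    rw [← prod_zw]
    refine Finset.prod_congr rfl fun j _ => ?_
    unfold zf
    rw [Fin.append_right]
  rw [e1, e2, hL0] at key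
  exact key

end Pool.Agent.Tate.Fi
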