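import Pool.Agent.Lib.Tate.G.Spec

/-!
# C42 (MP_071d69_gt), block G: `S_Yl`, the labels
-/

set_option autoImplicit false
set_option linter.unusedSectionVars false

open Set Filter Topology

noncomputable section

namespace Pool.Agent.Tate.Fi

open Idx Toe Ko Cel Ext

namespace YlAux

variable {A : Type} [Fintype A] [DecidableEq A]

theorem aj_tau (M j : ℕ) : aj A M j ∘ tau A M = aj A M j := by
  funext x
  rcases x with ⟨a, b⟩ | x <;> rfl

theorem chi_comp' (M : ℕ) (a : JJ A M → ZMod 4) : chi (a ∘ tau A M) = chi a := by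
  unfold chi
  exact Fintype.prod_equiv (tau A M) _ _ fun x => rfl

theorem chi_four (M : ℕ) (a : JJ A M → ZMod 4) : chi a ^ 4 = 1 := by
  unfold chi
  rw [← Finset.prod_pow]
  refine Finset.prod_eq_one fun x _ => ?_
  rw [← pow_mul, mul_comm, pow_mul, Complex.I_pow_four, one_pow]

theorem chi_aj {M j : ℕ} (h : j + 1 < M) : chi (aj A M j) = 1 := by
  unfold chi
  rw [Fintype.prod_sum_type]
  have e1 : ∏ x : A × Bool, Complex.I ^ (aj A M j (Sum.inl x)).val = 1 :=
    Finset.prod_eq_one fun x _ => by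
      show Complex.I ^ ((0 : ZMod 4)).val = 1
      simp
  rw [e1, one_mul]
  have hne : (⟨0, by omega⟩ : Fin M) ≠ ⟨j + 1, h⟩ := by
    intro h'
    have := congrArg Fin.val h'
    simp at this
  rw [Finset.prod_eq_mul (⟨0, by omega⟩ : Fin M) ⟨j + 1, h⟩ hne]
  · have hz : ¬ (j + 1 = 0) := by omega
    show Complex.I ^ ((if (0 : ℕ) = 0 then (1 : ZMod 4) else
        if 0 = j + 1 then 3 else 0)).val *
      Complex.I ^ ((if j + 1 = 0 then (1 : ZMod 4) else if j + 1 = j + 1 then 3 else 0)).val = 1
    rw [if_pos rfl, if_neg hz, if_pos rfl]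
    have h1 : (1 : ZMod 4).val = 1 := rfl
    have h3 : (3 : ZMod 4).val = 3 := rfl
    rw [h1, h3, ← pow_add]
    exact Complex.I_pow_four
  · rintro x - ⟨hx0, hx1⟩
    have hx0' : x.val ≠ 0 := fun h' => hx0 (Fin.ext h')
    have hx1' : x.val ≠ j + 1 := fun h' => hx1 (Fin.ext h')
    show Complex.I ^ ((if x.val = 0 then (1 : ZMod 4) else if x.val = j + 1 then 3 else 0)).val = 1
    rw [if_neg hx0', if_neg hx1']
    simp
  · intro h'
    exact absurd (Finset.mem_univ _) h'
  · intro h'
    exact absurd (Finset.mem_univ _) h'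

theorem aj_inj {M j j' : ℕ} (h : j + 1 < M) (he : aj A M j = aj A M j') : j = j' := by
  have := congrFun he (Sum.inr ⟨j + 1, h⟩)
  have h2 : (if j + 1 = 0 then (1 : ZMod 4) else if j + 1 = j + 1 then 3 else 0) =
      (if j + 1 = 0 then (1 : ZMod 4) else if j + 1 = j' + 1 then 3 else 0) := this
  have hz : ¬ (j + 1 = 0) := by omega
  rw [if_neg hz, if_neg hz, if_pos rfl] at h2
  by_contra hne
  have hz2 : ¬ (j + 1 = j' + 1) := by omega
  rw [if_neg hz2] at h2
  exact absurd h2 (by decide)

theorem mem_L0 {M k : ℕ} (l : JJ A M → ZMod 4) : l ∈ L0 A M k ↔ ∃ j < k, l = aj A M j := by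
  classical
  unfold L0
  rw [Finset.mem_filter]
  simp

theorem card_L0 {M k : ℕ} (h : k < M) : (L0 A M k).card = k := by
  classical
  have : L0 A M k = (Finset.range k).image (aj A M) := by
    ext l
    rw [mem_L0, Finset.mem_image]
    constructor
    · rintro ⟨j, hj, rfl⟩
      exact ⟨j, Finset.mem_range.2 hj, rfl⟩
    · rintro ⟨j, hj, rfl⟩
      exact ⟨j, Finset.mem_range.1 hj, rfl⟩
  rw [this, Finset.card_image_of_injOn, Finset.card_range]
  intro j hj j' _ he
  exact aj_inj (by have := Finset.mem_range.1 (Finset.mem_coe.1 hj); omega) he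

/-- The matrix of the action on the labels. -/
def rhM (A : Type) [Fintype A] [DecidableEq A] (M : ℕ) :
    Matrix (JJ A M → ZMod 4) (JJ A M → ZMod 4) ℂ :=
  Matrix.of fun l l' => if l' = l ∘ tau A M then chi l else 0

theorem rhM_mul {M : ℕ} (P : Matrix (JJ A M → ZMod 4) (JJ A M → ZMod 4) ℂ)
    (a b : JJ A M → ZMod 4) : (rhM A M * P * (rhM A M).conjTranspose) a b =
    chi a * (starRingEnd ℂ) (chi b) * P (a ∘ tau A M) (b ∘ tau A M) := by
  have h1 : ∀ c, (rhM A M * P) a c = chi a * P (a ∘ tau A M) c := by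
    intro c
    rw [Matrix.mul_apply, Finset.sum_eq_single (a ∘ tau A M)]
    · show (if a ∘ tau A M = a ∘ tau A M then chi a else 0) * _ = _
      rw [if_pos rfl]
    · intro d _ hd
      show (if d = a ∘ tau A M then chi a else 0) * _ = _
      rw [if_neg hd, zero_mul]
    · intro h'
      exact absurd (Finset.mem_univ _) h'
  rw [Matrix.mul_apply, Finset.sum_eq_single (b ∘ tau A M)]
  · rw [h1, Matrix.conjTranspose_apply]
    show _ * star (if b ∘ tau A M = b ∘ tau A M then chi b else 0) = _
    rw [if_pos rfl]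
    show _ * (starRingEnd ℂ) (chi b) = _
    ring
  · intro d _ hd
    rw [Matrix.conjTranspose_apply]
    show _ * star (if d = b ∘ tau A M then chi b else 0) = _
    rw [if_neg hd, star_zero, mul_zero]
  · intro h'
    exact absurd (Finset.mem_univ _) h'

/-- The action on a configuration. -/
theorem act_P {G : Type} [Group G] (χ : G →* ℤˣ) (ψ : G →* Circle) (M : ℕ) (g : G)
    (hχ : χ g = -1) (hψ : (ψ g : ℂ) = Complex.I) (c : CW (JJ A M)) (y : JJ A M → VV) :
    ((actW χ ψ A M).a g c).P (gy χ ψ g y) = rhM A M * c.P y * (rhM A M).conjTranspose := by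
  ext a b
  rw [rhM_mul]
  have hchi : ∀ a : JJ A M → ZMod 4, chiz (ψ g) a = chi a := by
    intro a
    unfold chiz chi
    rw [hψ]
  have htz : tz A M (χ g) = tau A M := by
    unfold tz
    rw [hχ, if_neg (by decide)]
  have hy : (rh (JJ A M) (ψ g)).symm (gy χ ψ g y) = y ∘ (tau A M).symm := by
    funext j
    show ((y ((tz A M (χ g)).symm j)).1, (((ψ g)⁻¹ : Circle) : ℂ) *
      ((ψ g : ℂ) * (y ((tz A M (χ g)).symm j)).2)) = _
    rw [← mul_assoc, ← Circle.coe_mul, inv_mul_cancel, Circle.coe_one, one_mul, htz]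
    rfl
  show (rotz (ψ g) (Conf.re (tz A M (χ g)) c)).P (gy χ ψ g y) a b = _
  rw [rotz_P, hchi, hchi, hy, htz]
  show _ * mre (tau A M) (c.P ((y ∘ (tau A M).symm) ∘ tau A M)) a b = _
  have : (y ∘ (tau A M).symm) ∘ tau A M = y := by
    funext j
    simp
  rw [this]
  rfl

end YlAux

open YlAux in
theorem pYl (h1 : S_Dz) : S_Yl := by
  intro A _ _ M k hk
  refine ⟨card_L0 hk, ?_⟩
  obtain ⟨U, μ, hU, -, hμ, hfix, hUρ⟩ := h1 (JJ A M → ZMod 4) (fun l => l ∘ tau A M) chi
    (fun l => by
      funext j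
      show l (tau A M (tau A M j)) = l j
      rw [tau_tau])
    (fun l => chi_comp' M l) (fun l => chi_four M l)
  have hUPk : U * Pk A M k = Pk A M k := by
    classical
    ext l m
    unfold Pk
    rw [Matrix.mul_diagonal, Matrix.diagonal_apply]
    by_cases hm : ∃ j < k, m = aj A M j
    · rw [if_pos hm, mul_one]
      obtain ⟨j, hj, rfl⟩ := hm
      rw [((hfix _ (aj_tau M j)).2 l).2]
      by_cases hl : l = aj A M j
      · subst hl
        rw [if_pos rfl, if_pos rfl, if_pos ⟨j, hj, rfl⟩]
      · rw [if_neg (fun h => hl h.symm), if_neg hl]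
    · rw [if_neg hm, mul_zero]
      by_cases hl : l = m
      · subst hl
        rw [if_pos rfl, if_neg hm]
      · rw [if_neg hl]
  have hconj : U * Pk A M k * U.conjTranspose = Pk A M k := by
    have hP : (Pk A M k).conjTranspose = Pk A M k := (Pk_herm M k).eq
    calc U * Pk A M k * U.conjTranspose = (U * (Pk A M k).conjTranspose).conjTranspose := by
          rw [hUPk, Matrix.conjTranspose_mul, Matrix.conjTranspose_conjTranspose]
      _ = Pk A M k := by rw [hP, hUPk, hP]
  refine ⟨U, hU, μ, hμ, fun l hl => ?_, ?_, fun y => ?_, ?_⟩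
  · obtain ⟨j, hj, rfl⟩ := (mem_L0 l).1 hl
    rw [(hfix _ (aj_tau M j)).1]
    exact chi_aj (by omega)
  · rw [Conf.continuous_iff]
    intro f
    simp only [Conf.ev_cj]
    have h := Conf.continuous_iff.1 (continuous_id (X := CW (JJ A M))) f
    exact (continuous_const.matrix_mul h).matrix_mul continuous_const
  · refine Conf.ext (funext fun y' => ?_)
    rw [Conf.cj_P]
    by_cases hy : y' = y
    · subst hy
      rw [Conf.single_self, hconj]
    · rw [Conf.single_ne _ _ _ hy, mul_zero, zero_mul]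
  · intro G _ χ ψ g hχ hψ c y l l'
    rw [Conf.cj_P, Conf.cj_P, act_P χ ψ M g hχ hψ]
    have hUρ' : U * rhM A M = Matrix.diagonal μ * U := hUρ
    have : U * (rhM A M * c.P y * (rhM A M).conjTranspose) * U.conjTranspose =
        Matrix.diagonal μ * (U * c.P y * U.conjTranspose) * (Matrix.diagonal μ).conjTranspose := by
      calc U * (rhM A M * c.P y * (rhM A M).conjTranspose) * U.conjTranspose
          = (U * rhM A M) * c.P y * (U * rhM A M).conjTranspose := by
            rw [Matrix.conjTranspose_mul]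
            simp only [mul_assoc]
        _ = (Matrix.diagonal μ * U) * c.P y * (Matrix.diagonal μ * U).conjTranspose := by
            rw [hUρ']
        _ = _ := by
            rw [Matrix.conjTranspose_mul]
            simp only [mul_assoc]
    rw [this, Matrix.diagonal_conjTranspose, Matrix.mul_diagonal, Matrix.diagonal_mul]
    rfl

end Pool.Agent.Tate.Fi
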