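import Pool.Agent.Lib.Tate.G.Spec

/-!
# C42, block G, Yx: the Clifford matrices of the points (helper19)
-/

set_option autoImplicit false

open Set Filter Topology

noncomputable section

namespace Pool.Agent.Tate.Fi

open Idx Toe Ko Cel Ext

namespace YxAux

variable {N : ℕ}

lemma parity (hC1 : Ko.S_C1) (a b : Fin N → ℂ) {I J : Finset (Fin N)} (hI : Even I.card)
    (hJ : ¬ Even J.card) : (cl a * cl b) I J = 0 := by
  rw [Matrix.mul_apply]
  refine Finset.sum_eq_zero fun K _ => ?_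
  by_cases hK : Even K.card
  · rw [(hC1 N a).2.2 I K ⟨fun _ => hK, fun _ => hI⟩, zero_mul]
  · rw [(hC1 N b).2.2 K J ⟨fun h => absurd h hK, fun h => absurd h hJ⟩, mul_zero]

lemma sum_ev (f : Finset (Fin N) → ℂ) (hf : ∀ J : Finset (Fin N), ¬ Even J.card → f J = 0) :
    ∑ J : Ev N, f J.1 = ∑ J, f J := by
  rw [← Finset.sum_filter_add_sum_filter_not Finset.univ (fun J : Finset (Fin N) => Even J.card) f]
  rw [Finset.sum_eq_zero (s := Finset.univ.filter fun J : Finset (Fin N) => ¬ Even J.card)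
    (fun J hJ => hf J (Finset.mem_filter.mp hJ).2), add_zero]
  exact (Finset.sum_subtype (Finset.univ.filter fun J : Finset (Fin N) => Even J.card)
    (by simp) f).symm

lemma cl_cont : Continuous (cl : (Fin N → ℂ) → Matrix (Finset (Fin N)) (Finset (Fin N)) ℂ) := by
  unfold cl
  refine continuous_finset_sum _ fun i _ => ?_
  have h1 : Continuous fun z : Fin N → ℂ => z i := continuous_apply i
  exact (h1.smul continuous_const).add
    ((Complex.continuous_conj.comp h1).smul continuous_const)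

lemma sq_single (hC1 : Ko.S_C1) (i₀ : Fin N) :
    cl (Pi.single i₀ (1 : ℂ)) * cl (Pi.single i₀ (1 : ℂ)) = 1 := by
  rw [(hC1 N (Pi.single i₀ 1)).1]
  have : (∑ i, ‖(Pi.single i₀ (1 : ℂ) : Fin N → ℂ) i‖ ^ 2 : ℝ) = 1 := by
    rw [Finset.sum_eq_single i₀]
    · simp
    · intro i _ hi
      rw [Pi.single_eq_of_ne hi]
      simp
    · intro h
      exact absurd (Finset.mem_univ i₀) h
  rw [this]
  simp

end YxAux

open YxAux in
theorem pYx (hC1 : Ko.S_C1) (hCg : Ko.S_Cg) (hSt : S_St) : S_Yx := by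
  intro Y _ N i₀ v hv hlim hre
  obtain ⟨s1, ⟨s2, s3⟩, -, -, s5⟩ := hSt N i₀
  have hcont : Continuous fun y => cl (Pi.single i₀ (1 : ℂ)) * cl (st i₀ (v y)) :=
    continuous_const.matrix_mul (cl_cont.comp (s2.comp hv))
  have hone : ∀ I I' : Ev N, (1 : Matrix (Finset (Fin N)) (Finset (Fin N)) ℂ) I.1 I'.1 =
      (1 : Matrix (Ev N) (Ev N) ℂ) I I' := by
    intro I I'
    rw [Matrix.one_apply, Matrix.one_apply]
    by_cases h : I = I'
    · rw [if_pos h, if_pos (congrArg Subtype.val h)]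
    · rw [if_neg h, if_neg fun h' => h (Subtype.ext h')]
  refine ⟨⟨fun y I I' => (cl (st i₀ (v y)) * cl (Pi.single i₀ (1 : ℂ))) I.1 I'.1, fun y => ?_⟩,
    fun I I' => ?_, fun I I' => ?_, ?_⟩
  · ext I I'
    rw [Matrix.mul_apply]
    have h1 : ∑ J : Ev N, XX i₀ v y I J *
        (cl (st i₀ (v y)) * cl (Pi.single i₀ (1 : ℂ))) J.1 I'.1 =
        ∑ J, (cl (Pi.single i₀ (1 : ℂ)) * cl (st i₀ (v y))) I.1 J *
          (cl (st i₀ (v y)) * cl (Pi.single i₀ (1 : ℂ))) J I'.1 :=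
      sum_ev (fun J => (cl (Pi.single i₀ (1 : ℂ)) * cl (st i₀ (v y))) I.1 J *
          (cl (st i₀ (v y)) * cl (Pi.single i₀ (1 : ℂ))) J I'.1)
        (fun J hJ => by rw [parity hC1 _ _ I.2 hJ, zero_mul])
    rw [h1, ← Matrix.mul_apply]
    have h2 : cl (st i₀ (v y)) * cl (st i₀ (v y)) = 1 := by
      rw [(hC1 N (st i₀ (v y))).1]
      have h3 : (∑ i, ‖st i₀ (v y) i‖ ^ 2 : ℝ) = 1 := s1 (v y) (hre y)
      rw [h3]
      simp
    have h4 : cl (Pi.single i₀ (1 : ℂ)) * cl (st i₀ (v y)) *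
        (cl (st i₀ (v y)) * cl (Pi.single i₀ (1 : ℂ))) = 1 := by
      rw [Matrix.mul_assoc, ← Matrix.mul_assoc (cl (st i₀ (v y))), h2, Matrix.one_mul,
        sq_single hC1]
    rw [h4, hone]
  · exact hcont.matrix_elem I.1 I'.1
  · have h1 : Tendsto (fun y => cl (Pi.single i₀ (1 : ℂ)) * cl (st i₀ (v y))) (cocompact Y)
        (𝓝 (cl (Pi.single i₀ (1 : ℂ)) * cl (Pi.single i₀ (1 : ℂ)))) := by
      have h2 : Continuous fun z : Fin N → ℂ => cl (Pi.single i₀ (1 : ℂ)) * cl z :=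
        continuous_const.matrix_mul cl_cont
      exact (h2.tendsto (Pi.single i₀ (1 : ℂ))).comp (s3.comp hlim)
    rw [sq_single hC1] at h1
    rw [← hone]
    have h3 : Continuous fun A : Matrix (Finset (Fin N)) (Finset (Fin N)) ℂ => A I.1 I'.1 :=
      continuous_id.matrix_elem I.1 I'.1
    exact (h3.tendsto 1).comp h1
  · intro ζ hζ hζ0 y y' hy I I'
    have hn : ∀ i, ‖ζ i‖ = 1 := fun i => Complex.norm_eq_one_of_pow_eq_one (hζ i) (by norm_num)
    have hst : st i₀ (v y') = fun i => ζ i * st i₀ (v y) i := by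
      rw [hy]
      exact (s5 ζ hn hζ0 (v y)).1
    have he : (fun i => ζ i * (Pi.single i₀ (1 : ℂ) : Fin N → ℂ) i) = Pi.single i₀ (1 : ℂ) := by
      funext i
      by_cases h : i = i₀
      · subst h
        rw [Pi.single_eq_same, hζ0, one_mul]
      · rw [Pi.single_eq_of_ne h, mul_zero]
    show (cl (Pi.single i₀ (1 : ℂ)) * cl (st i₀ (v y'))) I.1 I'.1 * chc ζ I.1 =
      chc ζ I'.1 * (cl (Pi.single i₀ (1 : ℂ)) * cl (st i₀ (v y))) I.1 I'.1
    rw [Matrix.mul_apply, Matrix.mul_apply, Finset.sum_mul, Finset.mul_sum, hst]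
    refine Finset.sum_congr rfl fun K _ => ?_
    have h1 := hCg N ζ (Pi.single i₀ 1) I.1 K hζ
    have h2 := hCg N ζ (st i₀ (v y)) K I'.1 hζ
    rw [he] at h1
    linear_combination (cl (fun i => ζ i * st i₀ (v y) i) K I'.1) * h1 +
      (cl (Pi.single i₀ (1 : ℂ)) I.1 K) * h2

end Pool.Agent.Tate.Fi
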