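import Pool.Agent.Lib.Tate.G.Dz
import Pool.Agent.Lib.Tate.G.Ep
import Pool.Agent.Lib.Tate.G.G1
import Pool.Agent.Lib.Tate.G.G2
import Pool.Agent.Lib.Tate.G.Gr
import Pool.Agent.Lib.Tate.G.NT
import Pool.Agent.Lib.Tate.G.Nt
import Pool.Agent.Lib.Tate.G.P1
import Pool.Agent.Lib.Tate.G.P2
import Pool.Agent.Lib.Tate.G.P3
import Pool.Agent.Lib.Tate.G.P4
import Pool.Agent.Lib.Tate.G.Sa
import Pool.Agent.Lib.Tate.G.Si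
import Pool.Agent.Lib.Tate.G.St
import Pool.Agent.Lib.Tate.G.Sv
import Pool.Agent.Lib.Tate.G.Th
import Pool.Agent.Lib.Tate.G.Yc
import Pool.Agent.Lib.Tate.G.Yf
import Pool.Agent.Lib.Tate.G.Yl
import Pool.Agent.Lib.Tate.G.Yx
import Pool.Agent.Lib.Tate.Idx.B1
import Pool.Agent.Lib.Tate.Idx.B2
import Pool.Agent.Lib.Tate.Idx.B3
import Pool.Agent.Lib.Tate.Idx.B4
import Pool.Agent.Lib.Tate.Idx.B5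
import Pool.Agent.Lib.Tate.Idx.Cp
import Pool.Agent.Lib.Tate.Idx.I1
import Pool.Agent.Lib.Tate.Idx.I2
import Pool.Agent.Lib.Tate.Idx.I3
import Pool.Agent.Lib.Tate.Idx.I4
import Pool.Agent.Lib.Tate.Idx.I5
import Pool.Agent.Lib.Tate.Idx.I6
import Pool.Agent.Lib.Tate.Idx.I7
import Pool.Agent.Lib.Tate.Idx.I8
import Pool.Agent.Lib.Tate.Idx.L1
import Pool.Agent.Lib.Tate.Idx.L2
import Pool.Agent.Lib.Tate.Idx.L3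
import Pool.Agent.Lib.Tate.Idx.L5
import Pool.Agent.Lib.Tate.Idx.L6
import Pool.Agent.Lib.Tate.Idx.L7
import Pool.Agent.Lib.Tate.Idx.L8
import Pool.Agent.Lib.Tate.Idx.T1
import Pool.Agent.Lib.Tate.Idx.T2
import Pool.Agent.Lib.Tate.Idx.T3
import Pool.Agent.Lib.Tate.Idx.T4
import Pool.Agent.Lib.Tate.Idx.T5
import Pool.Agent.Lib.Tate.Idx.T6
import Pool.Agent.Lib.Tate.K.C1
import Pool.Agent.Lib.Tate.K.Ca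
import Pool.Agent.Lib.Tate.K.Ce
import Pool.Agent.Lib.Tate.K.Cg
import Pool.Agent.Lib.Tate.K.Cq
import Pool.Agent.Lib.Tate.K.Fn
import Pool.Agent.Lib.Tate.K.K1
import Pool.Agent.Lib.Tate.K.K2
import Pool.Agent.Lib.Tate.K.K3
import Pool.Agent.Lib.Tate.K.K4
import Pool.Agent.Lib.Tate.K.K5
import Pool.Agent.Lib.Tate.K.Kc
import Pool.Agent.Lib.Tate.K.Kp
import Pool.Agent.Lib.Tate.Toe.Ap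
import Pool.Agent.Lib.Tate.Toe.Aq
import Pool.Agent.Lib.Tate.Toe.Bt
import Pool.Agent.Lib.Tate.Toe.C0
import Pool.Agent.Lib.Tate.Toe.Cj
import Pool.Agent.Lib.Tate.Toe.Ck
import Pool.Agent.Lib.Tate.Toe.Dg
import Pool.Agent.Lib.Tate.Toe.Di
import Pool.Agent.Lib.Tate.Toe.Ds
import Pool.Agent.Lib.Tate.Toe.E2
import Pool.Agent.Lib.Tate.Toe.E3
import Pool.Agent.Lib.Tate.Toe.Ec
import Pool.Agent.Lib.Tate.Toe.El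
import Pool.Agent.Lib.Tate.Toe.Fr
import Pool.Agent.Lib.Tate.Toe.It
import Pool.Agent.Lib.Tate.Toe.P2
import Pool.Agent.Lib.Tate.Toe.Pa
import Pool.Agent.Lib.Tate.Toe.Pm
import Pool.Agent.Lib.Tate.Toe.Rs
import Pool.Agent.Lib.Tate.Toe.Sh
import Pool.Agent.Lib.Tate.Toe.Sx
import Pool.Agent.Lib.Tate.Toe.To1
import Pool.Agent.Lib.Tate.Toe.To2
import Pool.Agent.Lib.Tate.Toe.To3
import Pool.Agent.Lib.Tate.Toe.To4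
import Pool.Agent.Lib.Tate.Toe.To5
import Pool.Agent.Lib.Tate.Toe.Ub
import Pool.Agent.Lib.Tate.WAll
import Pool.Agent.Lib.Tate.X.All

/-!
# C42 (MP_071d69_gt), T7: assembly (helper35)

All statements of the blocks Idx, Toe, K, G, without hypotheses.
-/

set_option autoImplicit false

noncomputable section

namespace Pool.Agent.Tate

theorem Idx.qI4 : Idx.S_I4 := Idx.pI4

theorem Idx.qL1 : Idx.S_L1 := Idx.pL1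

theorem Idx.qL2 : Idx.S_L2 := Idx.pL2

theorem Idx.qL3 : Idx.S_L3 := Idx.pL3 Idx.qL1 Idx.qL2

theorem Idx.qL5 : Idx.S_L5 := Idx.pL5 Idx.qL1 Idx.qL2

theorem Idx.qL6 : Idx.S_L6 := Idx.pL6 Idx.qL1 Idx.qL2

theorem Idx.qL8 : Idx.S_L8 := Idx.pL8 Idx.qL1 Idx.qL2

theorem Idx.qT1 : Idx.S_T1 := Idx.pT1

theorem Idx.qT2 : Idx.S_T2 := Idx.pT2 Idx.qT1

theorem Idx.qT3 : Idx.S_T3 := Idx.pT3 Idx.qT1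

theorem Idx.qT4 : Idx.S_T4 := Idx.pT4 Idx.qT2 Idx.qT3

theorem Idx.qT5 : Idx.S_T5 := Idx.pT5

theorem Idx.qT6 : Idx.S_T6 := Idx.pT6 Idx.qT1 Idx.qT5

theorem Toe.qC0 : Toe.S_C0 := Toe.pC0 Idx.qL3

theorem Toe.qCj : Toe.S_Cj := Toe.pCj

theorem Toe.qDg : Toe.S_Dg := Toe.pDg Idx.qL2 Idx.qL8

theorem Toe.qDs : Toe.S_Ds := Toe.pDs

theorem Toe.qE2 : Toe.S_E2 := Toe.pE2

theorem Toe.qE3 : Toe.S_E3 := Toe.pE3 Toe.qE2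

theorem Toe.qEc : Toe.S_Ec := Toe.pEc

theorem Toe.qPm : Toe.S_Pm := Toe.pPm Toe.qCj Toe.qE3 Toe.qEc

theorem Toe.qRs : Toe.S_Rs := Toe.pRs

theorem Toe.qSx : Toe.S_Sx := Toe.pSx

theorem Toe.qTo2 : Toe.S_To2 := Toe.pTo2 Idx.qL2

theorem Toe.qTo4 : Toe.S_To4 := Toe.pTo4 Idx.qL1 Idx.qL2 Idx.qL3

theorem Toe.qTo5 : Toe.S_To5 := Toe.pTo5 Idx.qL2

theorem Toe.qUb : Toe.S_Ub := Toe.pUb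

theorem Ko.qCa : Ko.S_Ca := Ko.pCa

theorem Ko.qCe : Ko.S_Ce := Ko.pCe

theorem Ko.qCg : Ko.S_Cg := Ko.pCg

theorem Ko.qCq : Ko.S_Cq := Ko.pCq

theorem Ko.qK1 : Ko.S_K1 := Ko.pK1

theorem Ko.qK3 : Ko.S_K3 := Ko.pK3

theorem Ko.qKc : Ko.S_Kc := Ko.pKc Idx.qL2

theorem Fi.qDz : Fi.S_Dz := Fi.pDz

theorem Fi.qEp : Fi.S_Ep := Fi.pEp

theorem Fi.qG2 : Fi.S_G2 := Fi.pG2 Cel.pHa

theorem Fi.qGr : Fi.S_Gr := Fi.pGr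

theorem Fi.qNt : Fi.S_Nt := Fi.pNt Cel.qCo

theorem Fi.qP1 : Fi.S_P1 := Fi.pP1

theorem Fi.qP2 : Fi.S_P2 := Fi.pP2

theorem Fi.qP3 : Fi.S_P3 := Fi.pP3

theorem Fi.qP4 : Fi.S_P4 := Fi.pP4

theorem Fi.qSa : Fi.S_Sa := Fi.pSa

theorem Fi.qSi : Fi.S_Si := Fi.pSi

theorem Fi.qSt : Fi.S_St := Fi.pSt

theorem Fi.qSv : Fi.S_Sv := Fi.pSv Cel.pHa

theorem Fi.qTh : Fi.S_Th := Fi.pTh

theorem Fi.qYc : Fi.S_Yc := Fi.pYc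

theorem Fi.qYl : Fi.S_Yl := Fi.pYl Fi.qDz

theorem Idx.qB4 : Idx.S_B4 := Idx.pB4 Idx.qT2 Idx.qT3

theorem Idx.qB5 : Idx.S_B5 := Idx.pB5 Idx.qT2 Idx.qT3

theorem Idx.qCp : Idx.S_Cp := Idx.pCp Idx.qT2 Idx.qT3

theorem Idx.qI1 : Idx.S_I1 := Idx.pI1 Idx.qT2 Idx.qT3

theorem Idx.qI2 : Idx.S_I2 := Idx.pI2 Idx.qT2 Idx.qT3

theorem Idx.qI3 : Idx.S_I3 := Idx.pI3 Idx.qT2 Idx.qT3

theorem Idx.qI5 : Idx.S_I5 := Idx.pI5 Idx.qT4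

theorem Idx.qI6 : Idx.S_I6 := Idx.pI6 Idx.qT2

theorem Idx.qI7 : Idx.S_I7 := Idx.pI7 Idx.qT6

theorem Idx.qI8 : Idx.S_I8 := Idx.pI8 Idx.qI2 Idx.qI4

theorem Idx.qL7 : Idx.S_L7 := Idx.pL7 Idx.qT1 Idx.qL3

theorem Toe.qAp : Toe.S_Ap := Toe.pAp Toe.qCj Toe.qEc

theorem Toe.qAq : Toe.S_Aq := Toe.pAq Toe.qAp

theorem Toe.qBt : Toe.S_Bt := Toe.pBt Idx.qL2 Idx.qL5 Idx.qL6 Toe.qSx

theorem Toe.qEl : Toe.S_El := Toe.pEl Toe.qUb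

theorem Toe.qSh : Toe.S_Sh := Toe.pSh Idx.qL1 Toe.qUb

theorem Toe.qTo1 : Toe.S_To1 := Toe.pTo1 Idx.qL1 Toe.qUb

theorem Toe.qTo3 : Toe.S_To3 := Toe.pTo3 Toe.qTo1 Toe.qTo2 Toe.qC0 Toe.qEl

theorem Ko.qC1 : Ko.S_C1 := Ko.pC1 Ko.qCa

theorem Ko.qK2 : Ko.S_K2 := Ko.pK2 Toe.qE2 Toe.qTo1 Toe.qTo2 Toe.qC0 Toe.qTo3 Ko.qC1 Ko.qCe

theorem Ko.qK4 : Ko.S_K4 := Ko.pK4 Idx.qT2 Idx.qL1 Idx.qL2 Idx.qL3 Idx.qL7 Toe.qTo1 Toe.qTo5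
  Ko.qCq Ko.qK1 Ko.qK2 Ko.qK3

theorem Ko.qK5 : Ko.S_K5 := Ko.pK5 Idx.qI2 Idx.qI4 Idx.qI5 Idx.qI8 Idx.qL2 Idx.qL5 Idx.qL6
  Toe.qTo1 Toe.qTo2 Toe.qTo5 Toe.qDg Ko.qC1 Ko.qCg Ko.qK4 Ko.qKc

theorem Ko.qKp : Ko.S_Kp := Ko.pKp Ko.qC1 Ko.qCg Ko.qCe Ko.qCq

theorem Fi.qG1 : Fi.S_G1 := Fi.pG1 Cel.qIn Cnn.qCn Fi.qSv Fi.qNt Fi.qSi Fi.qEp

theorem Fi.qYx : Fi.S_Yx := Fi.pYx Ko.qC1 Ko.qCg Fi.qSt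

theorem Idx.qB1 : Idx.S_B1 := Idx.pB1 Idx.qI2 Idx.qI3 Idx.qI4

theorem Idx.qB2 : Idx.S_B2 := Idx.pB2 Idx.qT2 Idx.qT3 Idx.qB4 Idx.qB5

theorem Idx.qB3 : Idx.S_B3 := Idx.pB3 Idx.qI1 Idx.qB1

theorem Toe.qCk : Toe.S_Ck := Toe.pCk Idx.qT2 Idx.qT3 Idx.qI3 Idx.qB1

theorem Toe.qFr : Toe.S_Fr := Toe.pFr Idx.qT2 Idx.qCp Idx.qB2 Toe.qPm Toe.qTo1 Toe.qTo2 Toe.qC0
  Toe.qTo3 Toe.qTo4 Toe.qTo5 Toe.qDg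

theorem Toe.qP2 : Toe.S_P2 := Toe.pP2 Idx.qI1 Idx.qI5 Idx.qI6 Idx.qI8 Idx.qL2 Toe.qTo5 Toe.qDg
  Toe.qCk Toe.qC0 Toe.qSh Toe.qBt

theorem Toe.qPa : Toe.S_Pa := Toe.pPa Idx.qB3 Toe.qTo2 Toe.qFr

theorem Toe.qIt : Toe.S_It := Toe.pIt Idx.qL2 Toe.qTo1 Toe.qTo2 Toe.qDg Toe.qFr Toe.qRs Toe.qP2

theorem Toe.qDi : Toe.S_Di := Toe.pDi Idx.qI1 Idx.qI7 Toe.qTo1 Toe.qDg Toe.qFr Toe.qPa Toe.qIt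
  Toe.qAq Toe.qDs

theorem Ko.qFn : Ko.S_Fn := Ko.pFn Toe.qTo1 Toe.qDg Toe.qDi Ko.qKp Ko.qK5

theorem Fi.qYf : Fi.S_Yf := Fi.pYf Ko.qFn Fi.qP1 Fi.qP2 Fi.qP3 Fi.qP4 Fi.qSt Fi.qSa Fi.qTh Fi.qYx
  Fi.qYc Fi.qYl

theorem Fi.qNT : Fi.S_NT := Fi.pNT Cel.pHa Cel.qCo Ext.qT4 Fi.qSv Fi.qEp Fi.qSi Fi.qG1 Fi.qG2
  Fi.qGr Fi.qYf

/-- The Tate construction of the witness is not `K(0)`-acyclic. -/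
theorem WS_not_acyclic : ¬ WS.TateK0Acyclic :=
  Fi.qNT _ _ _ _

end Pool.Agent.Tate
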