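import Pool.Agent.Lib.Tate.G.Spec

/-!
# C42 (MP_071d69_gt), block G: `S_Dz`, diagonalisation of the action on the labels
-/

set_option autoImplicit false

open Set Filter Topology

noncomputable section

namespace Pool.Agent.Tate.Fi

open Idx Toe Ko Cel Ext

namespace DzAux

private theorem row {L : Type} [Fintype L] [DecidableEq L] (p : L) (x y : ℂ) (l : L)
    (f : L → ℂ) :
    ∑ l', ((x * if l' = l then 1 else 0) + (y * if l' = p then 1 else 0)) * f l' =
      x * f l + y * f p := by
  simp_rw [add_mul, mul_assoc, Finset.sum_add_distrib, ← Finset.mul_sum]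
  simp

end DzAux

open DzAux

theorem pDz : S_Dz := by
  intro L _ _ π c hπ hc hc4
  have e : L ≃ Fin (Fintype.card L) := Fintype.equivFin L
  obtain ⟨s, hs⟩ : ∃ s : ℂ, s = (((Real.sqrt 2)⁻¹ : ℝ) : ℂ) := ⟨_, rfl⟩
  have hss : s * s = 1 / 2 := by
    rw [hs, ← Complex.ofReal_mul, ← mul_inv, Real.mul_self_sqrt (by norm_num)]
    push_cast
    norm_num
  have hstar : star s = s := by
    rw [hs]
    exact Complex.conj_ofReal _
  let σ : L → ℂ := fun l => if e l < e (π l) then 1 else -1
  have hσσ : ∀ l, σ l * σ l = 1 := by
    intro l
    simp only [σ]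
    split_ifs <;> norm_num
  have hσπ : ∀ l, π l ≠ l → σ (π l) = - σ l := by
    intro l hl
    simp only [σ, hπ]
    have hne : e l ≠ e (π l) := fun h => hl (e.injective h).symm
    rcases lt_or_gt_of_ne hne with h | h
    · rw [if_neg (not_lt.2 h.le), if_pos h]
    · rw [if_pos h, if_neg (not_lt.2 h.le)]
      norm_num
  have hσst : ∀ l, star (σ l) = σ l := by
    intro l
    simp only [σ]
    split_ifs <;> simp
  let a : L → ℂ := fun l => if π l = l then 1 else σ l * s
  let b : L → ℂ := fun l => if π l = l then 0 else s
  have ha : ∀ l, star (a l) = a l := by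
    intro l
    simp only [a]
    split_ifs
    · simp
    · rw [star_mul, hstar, hσst, mul_comm]
  have hb : ∀ l, star (b l) = b l := by
    intro l
    simp only [b]
    split_ifs
    · simp
    · exact hstar
  have hfix : ∀ l, π (π l) = π l ↔ π l = l := by
    intro l
    rw [hπ]
    exact eq_comm
  have hbπ : ∀ l, b (π l) = b l := by
    intro l
    simp only [b, hfix]
  let U : Matrix L L ℂ := Matrix.of fun l l' =>
    (a l * if l' = l then 1 else 0) + (b l * if l' = π l then 1 else 0)
  let μ : L → ℂ := fun l => if π l = l then c l else σ l * c l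
  have hU : ∀ l l', U l l' = (a l * if l' = l then 1 else 0) + (b l * if l' = π l then 1 else 0) :=
    fun _ _ => rfl
  have hUst : U.conjTranspose = U := by
    ext l l'
    rw [Matrix.conjTranspose_apply, hU, hU, star_add, star_mul', star_mul', ha, hb]
    have e1 : (star (if l = l' then (1 : ℂ) else 0)) = if l = l' then 1 else 0 := by
      split_ifs <;> simp
    have e2 : (star (if l = π l' then (1 : ℂ) else 0)) = if l = π l' then 1 else 0 := by
      split_ifs <;> simp
    rw [e1, e2]
    congr 1
    · by_cases h : l = l'
      · subst h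
        rfl
      · rw [if_neg h, if_neg (fun h' => h h'.symm), mul_zero, mul_zero]
    · by_cases h : l' = π l
      · subst h
        rw [if_pos (hπ l).symm, if_pos rfl, hbπ]
      · rw [if_neg h, if_neg (fun h' => h (by rw [h', hπ])), mul_zero, mul_zero]
  have hUU : U * U = 1 := by
    ext l l'
    rw [Matrix.mul_apply]
    simp_rw [hU l]
    rw [row, hU, hU, hπ, Matrix.one_apply]
    by_cases h : π l = l
    · simp only [a, b, h, if_true]
      by_cases h2 : l' = l
      · rw [if_pos h2, if_pos h2.symm]
        norm_num
      · rw [if_neg h2, if_neg (fun h' => h2 h'.symm)]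
        norm_num
    · have h3 : π (π l) ≠ π l := fun h' => h ((hfix l).1 h')
      simp only [a, b, h, h3, if_false, hσπ l h]
      by_cases h2 : l' = l
      · subst h2
        rw [if_pos rfl, if_neg (fun h' => h h'.symm)]
        linear_combination (2 : ℂ) * hss + (s * s) * (hσσ l')
      · rw [if_neg h2, if_neg (fun h' : l = l' => h2 h'.symm)]
        ring
  refine ⟨U, μ, ?_, ?_, ?_, ?_, ?_⟩
  · rw [hUst, hUU]
  · rw [hUst, hUU]
  · intro l
    simp only [μ]
    split_ifs
    · exact hc4 l
    · have : σ l ^ 4 = 1 := by
        have := hσσ l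
        linear_combination (σ l ^ 2 + 1) * this
      rw [mul_pow, this, hc4, one_mul]
  · intro l hl
    refine ⟨by simp only [μ, hl, if_true], fun l' => ⟨?_, ?_⟩⟩
    · rw [hU]
      simp only [a, b, hl, if_true]
      by_cases h : l' = l
      · rw [if_pos h, if_pos h.symm]
        norm_num
      · rw [if_neg h, if_neg (fun h' => h h'.symm)]
        norm_num
    · rw [hU]
      by_cases h : l = l'
      · subst h
        simp [a, b, hl]
      · have h' : l ≠ π l' := by
          intro h'
          apply h
          rw [← hπ l', ← h', hl]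
        rw [if_neg h, if_neg h']
        norm_num
  · ext l l'
    rw [Matrix.mul_apply, Matrix.diagonal_mul]
    simp_rw [hU l]
    rw [row]
    simp only [Matrix.of_apply]
    rw [hπ, hc]
    by_cases h : π l = l
    · simp only [a, b, μ, h, if_true]
      by_cases h2 : l' = l
      · simp [h2]
      · simp [h2]
    · simp only [a, b, μ, h, if_false]
      by_cases h2 : l' = l
      · subst h2
        have h5 : ¬ (l' = π l') := fun h' => h h'.symm
        simp only [h5, if_true, if_false]
        linear_combination (-(s * c l')) * hσσ l'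
      · rw [if_neg h2, if_neg h2]
        by_cases h3 : l' = π l
        · rw [if_pos h3, if_pos h3]
          ring
        · rw [if_neg h3, if_neg h3]
          ring

end Pool.Agent.Tate.Fi
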