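import Pool.Agent.Lib.Tate.G.Spec

/-!
# C42 (MP_071d69_gt), block G: `S_Si`, the action on the one point configurations
-/

set_option autoImplicit false

open Set Filter Topology

noncomputable section

namespace Pool.Agent.Tate.Fi

open Idx Toe Ko Cel Ext

namespace SiAux

private theorem aj_tau (A : Type) [Fintype A] [DecidableEq A] (M j : ℕ) :
    aj A M j ∘ tau A M = aj A M j := by
  funext x
  rcases x with x | x
  · rfl
  · rfl

private theorem aj_tz (A : Type) [Fintype A] [DecidableEq A] (M j : ℕ) (ε : ℤˣ) :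
    aj A M j ∘ tz A M ε = aj A M j := by
  unfold tz
  split_ifs
  · rfl
  · exact aj_tau A M j

private theorem pk_tz (A : Type) [Fintype A] [DecidableEq A] (M k : ℕ) (ε : ℤˣ)
    (a : JJ A M → ZMod 4) : (∃ j < k, a ∘ tz A M ε = aj A M j) ↔ ∃ j < k, a = aj A M j := by
  constructor
  · rintro ⟨j, hj, h⟩
    refine ⟨j, hj, ?_⟩
    rw [← aj_tz A M j ε] at h
    exact (tz A M ε).surjective.injective_comp_right h
  · rintro ⟨j, hj, h⟩
    exact ⟨j, hj, by rw [h, aj_tz]⟩

private theorem Pk_apply (A : Type) [Fintype A] [DecidableEq A] (M k : ℕ)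
    (a b : JJ A M → ZMod 4) [Decidable (∃ j < k, a = aj A M j)] :
    Pk A M k a b = if a = b then (if ∃ j < k, a = aj A M j then 1 else 0) else 0 := by
  classical
  unfold Pk
  rw [Matrix.diagonal_apply]
  by_cases h : a = b
  · rw [if_pos h, if_pos h]
    congr
  · rw [if_neg h, if_neg h]

end SiAux

open SiAux

theorem pSi : S_Si := by
  classical
  intro G _ χ ψ A _ _ M k g
  constructor
  · intro y
    refine Conf.ext (funext fun y' => ?_)
    ext a b
    rw [actW_a, rotz_P]
    show chiz (ψ g) a * (starRingEnd ℂ) (chiz (ψ g) b) *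
      (Conf.single y (Pk A M k) (Pk_herm M k) (Pk_idem M k)).P
        (((rh (JJ A M) (ψ g)).symm y') ∘ tz A M (χ g)) (a ∘ tz A M (χ g)) (b ∘ tz A M (χ g)) = _
    have hz : ∀ j, (rh (JJ A M) (ψ g)).symm y' j =
      ((y' j).1, (((ψ g)⁻¹ : Circle) : ℂ) * (y' j).2) := fun j => rfl
    by_cases h : y' = gy χ ψ g y
    · have h1 : ((rh (JJ A M) (ψ g)).symm y') ∘ tz A M (χ g) = y := by
        funext j
        rw [Function.comp_apply, hz, h]
        unfold gy
        rw [Equiv.symm_apply_apply]
        show ((y j).1, (((ψ g)⁻¹ : Circle) : ℂ) * ((ψ g : ℂ) * (y j).2)) = y j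
        rw [← mul_assoc, ← Circle.coe_mul, inv_mul_cancel, Circle.coe_one, one_mul]
      rw [h1, h, Conf.single_self, Conf.single_self, Pk_apply, Pk_apply]
      by_cases hab : a = b
      · subst hab
        rw [norm_chiz, one_mul, if_pos rfl, if_pos rfl]
        by_cases hk : ∃ j < k, a = aj A M j
        · rw [if_pos hk, if_pos ((pk_tz A M k _ a).2 hk)]
        · rw [if_neg hk, if_neg (fun h' => hk ((pk_tz A M k _ a).1 h'))]
      · rw [if_neg hab, if_neg (fun h' => hab ((tz A M (χ g)).surjective.injective_comp_right h')),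
          mul_zero]
    · have h1 : ((rh (JJ A M) (ψ g)).symm y') ∘ tz A M (χ g) ≠ y := by
        intro h1
        apply h
        funext j
        unfold gy
        have h2 := congrFun h1 ((tz A M (χ g)).symm j)
        rw [Function.comp_apply, Equiv.apply_symm_apply, hz] at h2
        rw [← h2]
        show y' j = ((y' j).1, (ψ g : ℂ) * ((((ψ g)⁻¹ : Circle) : ℂ) * (y' j).2))
        rw [← mul_assoc, ← Circle.coe_mul, mul_inv_cancel, Circle.coe_one, one_mul]
      rw [Conf.single_ne _ _ _ h1, Conf.single_ne _ _ _ h]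
      exact mul_zero _
  · refine Conf.ext (funext fun y' => ?_)
    ext a b
    rw [actW_a, rotz_P]
    exact mul_zero _

end Pool.Agent.Tate.Fi
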