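import Pool.Agent.Lib.Tate.X.Spec
import Pool.Agent.Lib.Tate.K.Spec
import Pool.Agent.Lib.Tate.Conn.Spec

/-!
# C42 (MP_071d69_gt), T7 (Det), block G (helper35): from the null homotopy to the contradiction

Start: `Ext.S_T4` (null homotopy of `S(d μ)_+ ∧ S^U → Conf`, `U = ℝ^(A ⊕ M)`).  Steps: `S_G1` (the same for
`U ⊕ λ^b`, by `Cel.S_In` and the connectivity `Cnn.S_Cn`), `S_G2` (a map `F'` on `ℝ^d × (U ⊕ λ^b)` with
limit `∅` at infinity), the map `Ps` from configurations to invertible matrices (Clifford multiplication), complex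
coordinates and stereographic projections (`S_Th`, `S_St`), `Ko.S_Fn`.  Result `S_NT`: the Tate construction of the
witness is not `K(0)`-acyclic.

Complete proofs in the docstrings.  Statement `S_X` is proved by `theorem pX` in
`Pool/Agent/Lib/Tate/G/X.lean` (namespace `Pool.Agent.Tate.Fi`); the statements which are used are
hypotheses of the theorem.
-/

set_option autoImplicit false

open Set Filter Topology

noncomputable section

namespace Pool.Agent.Tate.Fi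

open Idx Toe Ko Cel Ext

/-! ### Definitions -/

/-- The space `U ⊕ λ^b`. -/
abbrev WW (A : Type) (M b : ℕ) : Type := (QQ A M → ℝ) × (Fin b → ℂ)

/-- The embedding of `U ⊕ λ^b` in `(ℝ × ℂ)^(A × C₂ ⊕ M)`; the `x`-th copy of `λ` belongs to the index `ε x`. -/
def embb {A : Type} [DecidableEq A] {M b : ℕ} (ε : Fin b → QQ A M) (w : WW A M b) :
    JJ A M → VV := fun j => (w.1 (prj A M j), ∑ x, if ε x = prj A M j then w.2 x else 0)

/-- The action on `λ^b`. -/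
def actP {G : Type} [Group G] (ψ : G →* Circle) (b : ℕ) : Act G (Fin b → ℂ) where
  a g z := fun x => (ψ g : ℂ) * z x
  cont g := by fun_prop
  one z := by
    funext x
    simp
  mul g h z := by
    funext x
    simp [mul_assoc]

/-- The action on `U ⊕ λ^b`. -/
def actU {G : Type} [Group G] (ψ : G →* Circle) (A : Type) (M b : ℕ) : Act G (WW A M b) :=
  (Act.triv G (QQ A M → ℝ)).prod (actP ψ b)

/-- The motion of the points of a configuration under `g`. -/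
def gy {G : Type} [Group G] (χ : G →* ℤˣ) (ψ : G →* Circle) {A : Type} {M : ℕ} (g : G)
    (y : JJ A M → VV) : JJ A M → VV := fun j =>
  ((y ((tz A M (χ g)).symm j)).1, (ψ g : ℂ) * (y ((tz A M (χ g)).symm j)).2)

/-- `1 + ∑ P(y) ⊗ (X(y) - 1)`. -/
def Ps {Y L E : Type} [Fintype L] [DecidableEq L] [Fintype E] [DecidableEq E]
    (X : Y → Matrix E E ℂ) (c : Conf Y L) : Matrix (L × E) (L × E) ℂ :=
  1 + ∑ y ∈ c.fin.toFinset, Matrix.kroneckerMap (fun x y => x * y) (c.P y) (X y - 1)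

/-- `|v|²`. -/
def nsq {N : ℕ} (v : Fin N → ℂ) : ℝ := ∑ i, ‖v i‖ ^ 2

/-- Inverse stereographic projection, from `{Re v_{i₀} = 0}` to the sphere; `∞` goes to the unit vector `i₀`. -/
def st {N : ℕ} (i₀ : Fin N) (v : Fin N → ℂ) : Fin N → ℂ := fun i =>
  (2 * v i + (if i = i₀ then ((nsq v - 1 : ℝ) : ℂ) else 0)) / ((nsq v + 1 : ℝ) : ℂ)

/-- Stereographic projection. -/
def sti {N : ℕ} (i₀ : Fin N) (z : Fin N → ℂ) : Fin N → ℂ := fun i =>
  (z i - (if i = i₀ then ((z i₀).re : ℂ) else 0)) / ((1 - (z i₀).re : ℝ) : ℂ)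

/-- The number of complex coordinates of `U ⊕ ℝ ⊕ λ^b`. -/
abbrev Mc (p b : ℕ) : ℕ := p + 1 + b

/-- The number of complex coordinates of the complement `a λ + h μ_ℂ + 2h μ λ`. -/
abbrev wc (a h : ℕ) : ℕ := a + h + 2 * h

/-- The first coordinate. -/
def i0 (p b n : ℕ) : Fin (Mc p b + n) := Fin.castAdd n (Fin.castAdd b 0)

/-- The characters of `g = (i, -1)` on `U ⊕ ℝ ⊕ λ^b`. -/
def zM (p b : ℕ) : Fin (Mc p b) → ℂ :=
  Fin.append (fun _ : Fin (p + 1) => (1 : ℂ)) (fun _ : Fin b => Complex.I)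

/-- The characters of `g` on the complement. -/
def zw (a h : ℕ) : Fin (wc a h) → ℂ :=
  Fin.append (Fin.append (fun _ : Fin a => Complex.I) (fun _ : Fin h => (-1 : ℂ)))
    (fun _ : Fin (2 * h) => -Complex.I)

/-- All characters. -/
def zf (p b a h : ℕ) : Fin (Mc p b + wc a h) → ℂ := Fin.append (zM p b) (zw a h)

/-- The Clifford matrices `cl e cl (st v)` on the even part. -/
def XX {Y : Type} {N : ℕ} (i₀ : Fin N) (v : Y → Fin N → ℂ) (y : Y) : Matrix (Ev N) (Ev N) ℂ :=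
  fun I I' => (cl (Pi.single i₀ 1) * cl (st i₀ (v y))) I.1 I'.1

/-- The labels `aj j`, `j < k`. -/
def L0 (A : Type) [Fintype A] [DecidableEq A] (M k : ℕ) : Finset (JJ A M → ZMod 4) :=
  open Classical in Finset.univ.filter fun a => ∃ j < k, a = aj A M j

/-! ### Null homotopies -/

/-- **Sv.** One point configurations vanish at infinity.  (Uses `Cel.S_Ha`.)

Proof. `S_Ha`, `Conf.continuous_iff`, `Conf.tendsto_iff`: `(single y P).ev f = f y • P`, and `f ∘ k ∘ snd` is continuous and tends to `0`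
along `cocompact (X × W)` (`X` compact: `snd` tends to `cocompact W`).  `default.ev f = 0`. -/
def S_Sv : Prop := ∀ (X W V I : Type) [TopologicalSpace X] [CompactSpace X] [T2Space X]
  [TopologicalSpace W] [T2Space W] [TopologicalSpace V] [Fintype I] (k : W → V) (P : Matrix I I ℂ)
  (h1 : P.IsHermitian) (h2 : P * P = P), Continuous k → Tendsto k (cocompact W) (cocompact V) →
  VanOn (default : Conf V I) univ fun p : X × W => Conf.single (k p.2) P h1 h2

/-- **Nt.** Transport of null homotopies.  (Uses `Cel.S_Co`.)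

Proof. `H' (z, t) = H (κ z, t)`; `(z, t) ↦ (κ z, t)` is a homeomorphism, so it is proper. -/
def S_Nt : Prop := ∀ (G : Type) [Group G] (Z Z' Y : Type) [TopologicalSpace Z] [T2Space Z]
  [TopologicalSpace Z'] [T2Space Z'] [TopologicalSpace Y] (α : Act G Z) (α' : Act G Z')
  (β : Act G Y) (y0 : Y) (f : Z → Y) (κ : Z' ≃ₜ Z), (∀ g z, κ (α'.a g z) = α.a g (κ z)) →
  NullOn α β y0 univ f → NullOn α' β y0 univ fun z => f (κ z)

/-- **Si.** The action on the one point configurations.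

Proof. `(Conf.re e (single y P)).P y' = mre e ((single y P).P (y' ∘ e))`, non-zero only for `y' = y ∘ e.symm`; `rotz_P`.  The matrix `Pk` is
diagonal, so conjugation with `dz` does not change it; `mre (tau) Pk = Pk` since `aj j ∘ tau = aj j` (`aj j` is `0` on `A × Bool`, and
`tau` is the identity on `Fin M`).  `default` is fixed. -/
def S_Si : Prop := ∀ (G : Type) [Group G] (χ : G →* ℤˣ) (ψ : G →* Circle) (A : Type) [Fintype A]
  [DecidableEq A] (M k : ℕ) (g : G), (∀ y : JJ A M → VV,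
    (actW χ ψ A M).a g (Conf.single y (Pk A M k) (Pk_herm M k) (Pk_idem M k)) =
      Conf.single (gy χ ψ g y) (Pk A M k) (Pk_herm M k) (Pk_idem M k)) ∧
  (actW χ ψ A M).a g default = default

/-- **Ep.** The embeddings.

Proof. Continuity: finite sums.  Properness: `prj` is surjective, so every coordinate `w.1 q` is a coordinate of `embb ε w`, and for
`prj j = ε x` the second component is `w.2 x` (`ε` injective); so `‖w‖ ≤ ‖embb ε w‖`.  Equivariance: `prj ∘ tz.symm = prj`.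
The last two statements: `Fin.sum_univ_castSucc`, and the empty sum. -/
def S_Ep : Prop := ∀ (A : Type) [Fintype A] [DecidableEq A] (M b : ℕ),
  (∀ ε : Fin b → QQ A M, Function.Injective ε → Continuous (embb ε) ∧
    Tendsto (embb ε) (cocompact (WW A M b)) (cocompact (JJ A M → VV))) ∧
  (∀ (ε : Fin b → QQ A M) (G : Type) [Group G] (χ : G →* ℤˣ) (ψ : G →* Circle) (g : G)
    (w : WW A M b), gy χ ψ g (embb ε w) = embb ε ((actU ψ A M b).a g w)) ∧
  (∀ (ε : Fin (b + 1) → QQ A M) (u : QQ A M → ℝ) (z : Fin b → ℂ),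
    embb ε (u, Fin.snoc (α := fun _ => ℂ) z 0) = embb (fun x => ε x.castSucc) (u, z)) ∧
  ∀ (ε : Fin 0 → QQ A M) (w : WW A M 0), embb ε w = emb A M w.1

/-- **G1.** Adding copies of `λ`.  (Uses `Cel.S_In`, `Cnn.S_Cn`, `S_Sv`, `S_Nt`, `S_Si`, `S_Ep`.)

Proof. Induction on `b` (for all `ε`).  `b = 0`: `S_Nt` with `(a, (u, z)) ↦ (a, u)` (`Fin 0 → ℂ` has one point).  Step: `S_In` with
`U = WW A M b`, `ω = actU`, `β = actW`, `y0 = default` and
`f (a, ((u, z), s)) = single (embb ε (u, Fin.snoc z s)) Pk`; `VanOn`: `S_Sv` with `k ((u, z), s) = embb ε (u, Fin.snoc z s)` (`S_Ep`, and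
`((u, z), s) ↦ (u, Fin.snoc z s)` is a homeomorphism); equivariance: `S_Si`, `S_Ep`; the restriction to `s = 0` is the map for
`ε ∘ castSucc` (`S_Ep`), null homotopic by induction.  `ExtP (Conf (JJ → VV) _) n` for `n ≤ finrank = 3 (2 |A| + M)` by `S_Cn`, and
`d + (|A| + M + 2 b) + 2 ≤ 3 (2 |A| + M)`.  `S_Nt` for the homeomorphism `(a, (u, z)) ↦ (a, ((u, z ∘ castSucc), z (last)))`. -/
def S_G1 : Prop := ∀ (G : Type) [Group G] [Finite G] (χ : G →* ℤˣ) (ψ : G →* Circle), Ch χ ψ →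
  ∀ (A : Type) [Fintype A] [DecidableEq A] (M k d b : ℕ) (ε : Fin b → QQ A M),
  Function.Injective ε → d + (Fintype.card A + M) + 2 * b ≤ 3 * (2 * Fintype.card A + M) →
  NullOn ((actS χ d).prod (Act.triv G (QQ A M → ℝ))) (actW χ ψ A M) default univ
    (fun p : Sph d × (QQ A M → ℝ) =>
      Conf.single (emb A M p.2) (Pk A M k) (Pk_herm M k) (Pk_idem M k)) →
  NullOn ((actS χ d).prod (actU ψ A M b)) (actW χ ψ A M) default univ
    fun p : Sph d × WW A M b =>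
      Conf.single (embb ε p.2) (Pk A M k) (Pk_herm M k) (Pk_idem M k)

/-- **G2.** From the null homotopy to a map on `ℝ^d × W`.  (Uses `Cel.S_Ha`.)

Proof. Let `H` be the null homotopy.  `F' (x, w) = f w` for `x = 0`, and `H ((x / ‖x‖, w), min ‖x‖ 1)` for `x ≠ 0`.  Continuity at
points with `x ≠ 0`: composition.  At `(0, w₀)`: let `N` be an open neighbourhood of `f w₀`; `H` is continuous on
`(Sph d × W) × [0, 1]` and `H ((a, w₀), 0) = f w₀ ∈ N` for all `a` in the compact sphere, so by the tube lemma there are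
a neighbourhood `V` of `w₀` and `δ > 0` with `H ((a, w), t) ∈ N` for all `a`, `w ∈ V`, `0 ≤ t ≤ δ`; also `f w ∈ N` for `w ∈ V`.
Limit at infinity: let `N` be a neighbourhood of `y0`.  `H ∉ N` only for `w` in a compact set `C` (`S_Ha` and projection of a
compact set), and `F' (x, w) = H (.., 1) = y0` for `‖x‖ ≥ 1`; `f w ∉ N` only for `w` in a compact set `C'`.  So `F' ∉ N` only in the
compact set `closedBall 0 1 × (C ∪ C')`.  Equivariance: `H ((χ g a, g w), t) = g H ((a, w), t)`; at `x = 0`: `f (g w) = g (f w)`, from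
`H` at `t = 0` (the sphere is nonempty, `d ≥ 1`). -/
def S_G2 : Prop := ∀ (G : Type) [Group G] (χ : G →* ℤˣ) (d : ℕ) (W Y : Type)
  [NormedAddCommGroup W] [NormedSpace ℝ W] [FiniteDimensional ℝ W] [TopologicalSpace Y]
  (ω : Act G W) (β : Act G Y) (y0 : Y) (f : W → Y), 1 ≤ d → (∀ g, β.a g y0 = y0) →
  VanOn y0 univ f → NullOn ((actS χ d).prod ω) β y0 univ (fun p : Sph d × W => f p.2) →
  ∃ F' : EuclideanSpace ℝ (Fin d) × W → Y, VanOn y0 univ F' ∧ (∀ w, F' (0, w) = f w) ∧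
    ∀ g x w, F' (if χ g = 1 then x else -x, ω.a g w) = β.a g (F' (x, w))

/-- **Gr.** The group `C₂ × C₄`.

Proof. `G = ℤˣ × {ζ : Circle // ζ ^ 4 = 1}` (the second factor as a subgroup, e.g. the kernel of `powMonoidHom 4`; finite: `ζ` is
`1, -1, i` or `-i`), `χ`, `ψ` the projections, `g = (-1, i)`. -/
def S_Gr : Prop := ∃ (G : Type) (_ : Group G) (_ : Finite G) (χ : G →* ℤˣ) (ψ : G →* Circle)
  (g : G), Ch χ ψ ∧ χ g = -1 ∧ (ψ g : ℂ) = Complex.I

/-! ### From configurations to matrices -/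

/-- **P1.** Invertibility.

Proof. `(1 + ∑ P_y ⊗ a_y) (1 + ∑ P_y ⊗ b_y) = 1 + ∑ P_y ⊗ (a_y + b_y + a_y b_y)` (orthogonality, `Matrix.mul_kronecker_mul`), and
`a + b + a b = (1 + a) (1 + b) - 1 = 0` for `1 + a_y = X y`, `1 + b_y = X' y`. -/
def S_P1 : Prop := ∀ (Y L E : Type) [Fintype L] [DecidableEq L] [Fintype E] [DecidableEq E]
  (X X' : Y → Matrix E E ℂ) (c : Conf Y L), (∀ y, X y * X' y = 1) → Ps X c * Ps X' c = 1

/-- **P2.** Continuity.

Proof. The entry at `((l, i), (l', i'))` is that of `1` plus `(c.ev r) l l' + I (c.ev s) l l'`, where `r`, `s ∈ C₀(Y, ℝ)` are the real and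
imaginary parts of `y ↦ X y i i' - 1 i i'`; `Conf.continuous_iff`. -/
def S_P2 : Prop := ∀ (Y L E : Type) [TopologicalSpace Y] [Fintype L] [DecidableEq L] [Fintype E]
  [DecidableEq E] (X : Y → Matrix E E ℂ), (∀ i j, Continuous fun y => X y i j) →
  (∀ i j, Tendsto (fun y => X y i j) (cocompact Y) (𝓝 ((1 : Matrix E E ℂ) i j))) →
  Continuous fun c : Conf Y L => Ps X c

/-- **P3.** Special values. -/
def S_P3 : Prop := ∀ (Y L E : Type) [Fintype L] [DecidableEq L] [Fintype E] [DecidableEq E]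
  (X : Y → Matrix E E ℂ), Ps X (default : Conf Y L) = 1 ∧
  ∀ (y : Y) (P : Matrix L L ℂ) (h1 : P.IsHermitian) (h2 : P * P = P),
    Ps X (Conf.single y P h1 h2) = 1 + Matrix.kroneckerMap (fun x y => x * y) P (X y - 1)

/-- **P4.** Equivariance.

Proof. The support of `c'` is the image under `γ` of the support of `c`.  Summand for `γ y`:
`μ_l P_{l l'} conj μ_{l'} (X (γ y) - 1)_{i i'} μ_l⁻¹ η_i = P_{l l'} μ_{l'}⁻¹ η_{i'} (X y - 1)_{i i'}` (`conj μ = μ⁻¹`; for the unit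
matrix `1_{i i'} η_i = η_{i'} 1_{i i'}`). -/
def S_P4 : Prop := ∀ (Y L E : Type) [Fintype L] [DecidableEq L] [Fintype E] [DecidableEq E]
  (X : Y → Matrix E E ℂ) (γ : Y ≃ Y) (c c' : Conf Y L) (μ : L → ℂ) (η : E → ℂ),
  (∀ l, ‖μ l‖ = 1) →
  (∀ y l l', c'.P (γ y) l l' = μ l * c.P y l l' * (starRingEnd ℂ) (μ l')) →
  (∀ y i i', X (γ y) i i' * η i = η i' * X y i i') → ∀ p q : L × E,
    Ps X c' p q * ((μ p.1)⁻¹ * η p.2) = ((μ q.1)⁻¹ * η q.2) * Ps X c p q

/-- **Dz.** Diagonalisation of the action on the labels.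

Proof. Choose a linear order (or a set of representatives) on `L`.  `U` is symmetric and real: `U l l = 1` for `π l = l`; for a pair
`l < l' = π l`: `U l l = U l l' = U l' l = 1/√2`, `U l' l' = -1/√2`; all other entries `0`.  `μ l = c l` if `l ≤ π l`, `μ l = - c l`
otherwise.  `U U = 1`, and `U ρ = diag μ U`: on a pair `ρ` is `c l` times the exchange matrix, and
`(1/√2) [[1, 1], [1, -1]] [[0, 1], [1, 0]] = (1/√2) [[1, 1], [-1, 1]] = diag (1, -1) (1/√2) [[1, 1], [1, -1]]`. -/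
def S_Dz : Prop := ∀ (L : Type) [Fintype L] [DecidableEq L] (π : L → L) (c : L → ℂ),
  (∀ l, π (π l) = l) → (∀ l, c (π l) = c l) → (∀ l, c l ^ 4 = 1) →
  ∃ (U : Matrix L L ℂ) (μ : L → ℂ), U.conjTranspose * U = 1 ∧ U * U.conjTranspose = 1 ∧
    (∀ l, μ l ^ 4 = 1) ∧
    (∀ l, π l = l → μ l = c l ∧ ∀ l', U l l' = (if l = l' then 1 else 0) ∧
      U l' l = if l = l' then 1 else 0) ∧
    U * (Matrix.of fun l l' => if l' = π l then c l else 0) = Matrix.diagonal μ * U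

/-! ### Coordinates -/

/-- **St.** Stereographic projection.

Proof. Write `e` for the unit vector, `s = Re z_{i₀}`.  First: `|2 v + (|v|² - 1) e|² = 4 |v|² + (|v|² - 1)² = (|v|² + 1)²` if
`Re v_{i₀} = 0`.  Second: continuity clear, `nsq v → ∞`, `|v| / (nsq v + 1) → 0`.  Third: for `z` in the sphere `s ≤ 1`, with
equality only for `z = e`; `|z - s e|² = 1 - s²`, so `nsq (sti z) = (1 + s) / (1 - s)`, `nsq + 1 = 2 / (1 - s)`, `nsq - 1 = 2 s / (1 - s)`,
`st (sti z) = (1 - s) sti z + s e = z`.  Fourth: `nsq (sti z) = (1 + s) / (1 - s) → ∞`.  Fifth: `nsq (ζ v) = nsq v`. -/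
def S_St : Prop := ∀ (N : ℕ) (i₀ : Fin N),
  (∀ v, (v i₀).re = 0 → st i₀ v ∈ Sp N) ∧
  (Continuous (st i₀) ∧ Tendsto (st i₀) (cocompact (Fin N → ℂ)) (𝓝 (Pi.single i₀ 1))) ∧
  (∀ z ∈ Sp N, z ≠ Pi.single i₀ 1 → (sti i₀ z i₀).re = 0 ∧ st i₀ (sti i₀ z) = z) ∧
  (ContinuousOn (sti i₀) (Sp N \ {Pi.single i₀ 1}) ∧
    Tendsto (sti i₀) (𝓝[Sp N \ {Pi.single i₀ 1}] (Pi.single i₀ 1)) (cocompact (Fin N → ℂ))) ∧
  ∀ ζ : Fin N → ℂ, (∀ i, ‖ζ i‖ = 1) → ζ i₀ = 1 → ∀ v : Fin N → ℂ,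
    st i₀ (fun i => ζ i * v i) = (fun i => ζ i * st i₀ v i) ∧
    sti i₀ (fun i => ζ i * v i) = fun i => ζ i * sti i₀ v i

/-- **Sa.** Stereographic projection and subspaces.  Proof: `nsq (Fin.append v 0) = nsq v`, coordinates. -/
def S_Sa : Prop := ∀ (M n : ℕ) (i₀ : Fin M) (v : Fin M → ℂ),
  st (Fin.castAdd n i₀) (Fin.append v (0 : Fin n → ℂ)) = Fin.append (st i₀ v) (0 : Fin n → ℂ) ∧
  sti (Fin.castAdd n i₀) (Fin.append v (0 : Fin n → ℂ)) = Fin.append (sti i₀ v) (0 : Fin n → ℂ)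

/-- **Th.** Complex coordinates.

Proof. For `y : JJ A M → ℝ × ℂ` let `s_q` (`q ∈ QQ`) be `(y (a, false) + y (a, true)) / 2` for `q = inl a`, `y m` for `q = inr m`, and
`t_a = (y (a, false) - y (a, true)) / 2` (`a ∈ A`), all in `ℝ × ℂ`.  Under `g` (`χ g = -1`, `ψ g = i`): `s_q ↦ (s_q.1, i s_q.2)`,
`t_a ↦ (-t_a.1, -i t_a.2)`.  Choose bijections `QQ ≃ Option (Fin p × Bool)`, `A ≃ Fin h × Bool`, `A ≃ Fin (2 h)`, and
`ε' : Fin a → QQ` such that `ε`, `ε'` together are a bijection onto `QQ`, `EuclideanSpace ℝ (Fin (2 d')) ≅ ℂ^d'` (pairs of coordinates).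
`v y` = `(i s_none.1, (s_(l, false).1 + i s_(l, true).1)_l ; (s_(ε x).2)_x ; (s_(ε' x).2)_x ; (t_(x, false).1 + i t_(x, true).1)_x ; (t_x.2)_x)`.
It is a linear isomorphism onto `{Re v_{i₀} = 0}`, so proper.  `κ v = (r, (u, z))`: `z` = the coordinates of the block `Fin b`, `u` from the
imaginary part of the first coordinate and the next `p` coordinates (as in `v`), `r` from the last `d'` coordinates.  `κ` is a
linear isomorphism from `{Re v_{i₀} = 0}` to `ℝ^(2 d') × WW`, so it is proper there.  For `y = embb ε (u, z)`: `s_q = (u q, z x)` if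
`q = ε x`, `(u q, 0)` if `q` is an `ε' x`, and `t_a = 0`. -/
def S_Th : Prop := ∀ (A : Type) [Fintype A] [DecidableEq A] (M h p a b d' : ℕ)
  (ε : Fin b → QQ A M), Function.Injective ε → Fintype.card A = 2 * h → 2 * h + M = 2 * p + 1 →
  b + a = 2 * p + 1 →
  ∃ (v : (JJ A M → VV) → (Fin (Mc p b + wc a h) → ℂ))
    (κ : (Fin (Mc p b + d') → ℂ) → EuclideanSpace ℝ (Fin (2 * d')) × WW A M b),
    Continuous v ∧ Tendsto v (cocompact _) (cocompact _) ∧ (∀ y, (v y (i0 p b (wc a h))).re = 0) ∧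
    (∀ (G : Type) [Group G] (χ : G →* ℤˣ) (ψ : G →* Circle) (g : G), χ g = -1 →
      (ψ g : ℂ) = Complex.I → ∀ y, v (gy χ ψ g y) = fun i => zf p b a h i * v y i) ∧
    Continuous κ ∧
    Tendsto κ (cocompact _ ⊓ 𝓟 {v | (v (i0 p b d')).re = 0}) (cocompact _) ∧
    (∀ v, κ (fun i => Fin.append (zM p b) (fun _ : Fin d' => (-1 : ℂ)) i * v i) =
      (-(κ v).1, ((κ v).2.1, fun x => Complex.I * (κ v).2.2 x))) ∧
    ∀ v' : Fin (Mc p b) → ℂ, (v' (Fin.castAdd b 0)).re = 0 →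
      (κ (Fin.append v' 0)).1 = 0 ∧
      v (embb ε (κ (Fin.append v' 0)).2) = Fin.append v' (0 : Fin (wc a h) → ℂ)

/-! ### Assembly -/

/-- **Yx.** The Clifford matrices of the points.  (Uses `Ko.S_C1`, `Ko.S_Cg`, `S_St`.)

Proof. `e = Pi.single i₀ 1`.  Inverse of `XX` on the even part: `cl (st (v y)) * cl e` (`S_C1`; `|e| = 1`, `st (v y)` in the sphere; in the
products over the even part only zero terms are missing because of the parity).  Continuity and limit: the entries of `cl z` are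
continuous in `z`, `st (v y) → e` at infinity, `cl e * cl e = 1`.  Equivariance: `st (ζ v) = ζ st v`, `S_Cg` for `st (v y)` and for `e`
(`ζ e = e`). -/
def S_Yx : Prop := ∀ (Y : Type) [TopologicalSpace Y] (N : ℕ) (i₀ : Fin N) (v : Y → Fin N → ℂ),
  Continuous v → Tendsto v (cocompact Y) (cocompact _) → (∀ y, (v y i₀).re = 0) →
  (∃ X' : Y → Matrix (Ev N) (Ev N) ℂ, ∀ y, XX i₀ v y * X' y = 1) ∧
  (∀ I I', Continuous fun y => XX i₀ v y I I') ∧
  (∀ I I', Tendsto (fun y => XX i₀ v y I I') (cocompact Y)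
    (𝓝 ((1 : Matrix (Ev N) (Ev N) ℂ) I I'))) ∧
  ∀ (ζ : Fin N → ℂ), (∀ i, ζ i ^ 4 = 1) → ζ i₀ = 1 → ∀ y y' : Y,
    (v y' = fun i => ζ i * v y i) → ∀ I I' : Ev N,
    XX i₀ v y' I I' * chc ζ I.1 = chc ζ I'.1 * XX i₀ v y I I'

/-- **Yc.** Continuity of the composition.

Proof. At `z ≠ e` in `S`: `{e}ᶜ` is open, composition.  At `e`: `F' (q z) → y0` (`Cel.VanOn`: `hat y0 F'` is continuous at `∞`, `q z → ∞`),
`Ψ` continuous.  (`VanOn` for `univ` means continuity of `hat y0 F'` on `OnePoint Z`.) -/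
def S_Yc : Prop := ∀ (Z Z' Y E : Type) [TopologicalSpace Z] [T2Space Z] [TopologicalSpace Z']
  [T1Space Z'] [TopologicalSpace Y] [TopologicalSpace E] (y0 : Y) (F' : Z → Y) (Ψ : Y → E)
  (S : Set Z') (e : Z') (q : Z' → Z), VanOn y0 univ F' → Continuous Ψ →
  ContinuousOn q (S \ {e}) → Tendsto q (𝓝[S \ {e}] e) (cocompact Z) →
  ContinuousOn (fun z => open Classical in if z = e then Ψ y0 else Ψ (F' (q z))) S

/-- **Yl.** The labels.  (Uses `S_Dz`.)

Proof. `S_Dz` for `L = (JJ A M → ZMod 4)`, `π a = a ∘ tau`, `c a = chiz i a` (invariant under `tau`: `chiz_comp`).  For `c' = g c`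
(`χ g = -1`, `ψ g = i`): `(actW g c).P (gy g y) = ρ (c.P y) ρᴴ` with `ρ a b = chiz i a` if `b = a ∘ tau` and `0` otherwise (`rotz_P`, `Conf.re`).
So `(cj U c').P (gy g y) = diag μ (U c.P y Uᴴ) (diag μ)ᴴ`.  `aj j ∘ tau = aj j`, `chiz i (aj j) = i · i³ = 1` for `j < k < M`, and `aj` is
injective on `j < k`.  `U Pk Uᴴ = Pk` since `Pk` is the sum of the matrix units at the `aj j`, whose rows and columns in `U` are those of `1`. -/
def S_Yl : Prop := ∀ (A : Type) [Fintype A] [DecidableEq A] (M k : ℕ), k < M →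
  (L0 A M k).card = k ∧ ∃ (U : Matrix (JJ A M → ZMod 4) (JJ A M → ZMod 4) ℂ)
    (hU : U.conjTranspose * U = 1) (μ : (JJ A M → ZMod 4) → ℂ), (∀ l, μ l ^ 4 = 1) ∧
    (∀ l ∈ L0 A M k, μ l = 1) ∧ Continuous (Conf.cj (Y := JJ A M → VV) U hU) ∧
    (∀ y : JJ A M → VV, Conf.cj U hU (Conf.single y (Pk A M k) (Pk_herm M k) (Pk_idem M k)) =
      Conf.single y (Pk A M k) (Pk_herm M k) (Pk_idem M k)) ∧
    ∀ (G : Type) [Group G] (χ : G →* ℤˣ) (ψ : G →* Circle) (g : G), χ g = -1 →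
      (ψ g : ℂ) = Complex.I → ∀ (c : CW (JJ A M)) (y : JJ A M → VV) (l l' : JJ A M → ZMod 4),
      (Conf.cj U hU ((actW χ ψ A M).a g c)).P (gy χ ψ g y) l l' =
        μ l * (Conf.cj U hU c).P y l l' * (starRingEnd ℂ) (μ l')

/-- **Yf.** The inequality.
(Uses `Ko.S_Fn`, `S_P1`, `S_P2`, `S_P3`, `S_P4`, `S_St`, `S_Sa`, `S_Th`, `S_Yx`, `S_Yc`, `S_Yl`.)

Proof. `v`, `κ` from `S_Th`, `U`, `μ` from `S_Yl`, `e = Pi.single (i0 p b d') 1`, `X = XX (i0 p b (wc a h)) v`,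
`Ψ c = Ps X (cj U c)`, `F z = Ψ default = 1` for `z = e`, otherwise `F z = Ψ (F' (κ (sti z)))`.  `S_Fn` with `M = Mc p b`, `w = wc a h`,
`d = d'`, `L = (JJ A M → ZMod 4)`, `L₀ = L0 A M k`, `lam = μ⁻¹`, `ζ = zf p b a h`, `e' = Pi.single (i0 p b (wc a h)) 1`, `η = -1`.
Continuity: `S_Yc` with `q = κ ∘ sti` (`S_St`: on the sphere without `e` the point `sti z` has `Re = 0`, tends to infinity at `e`;
`S_Th`), `Ψ` continuous by `S_P2`, `S_Yx`, `S_Yl`.  Determinant: `S_P1`, `S_Yx`.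
Equivariance: `sti (ζ z) = ζ sti z`, `κ (ζ v) = (-r, (u, i z))`, the hypothesis on `F'`, and `S_P4` with `γ = gy g` (a bijection with
inverse `gy g⁻¹`), `S_Yl`, `S_Yx`, `S_Th`; `chE μ⁻¹ ζ (l, I) = (μ l)⁻¹ chc ζ I`; for `z = e`: `ζ e = e`, `F = 1`.
Restriction: let `z = Fin.append z' 0`, `z' ∈ Sp (Mc p b)`.  If `z ≠ e`: `sti z = Fin.append (sti z') 0` (`S_Sa`), `κ (..) = (0, w)` and
`v (embb ε w) = Fin.append (sti z') 0`, `F' (0, w) = single (embb ε w) Pk`, so `F z = 1 + Pk ⊗ (X - 1)` (`S_P3`, `S_Yl`) with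
`X = cl e' * cl (st (Fin.append (sti z') 0)) = cl e' * cl (Fin.append z' 0)` (`S_Sa`, `S_St`): this is `phF`.  If `z = e`:
`phF = 1 + Pk ⊗ (cl e' cl e' - 1) = 1`.  The product: `‖1 - (-1)‖ = 2` on the left; on the right `‖1 - i⁻¹‖ = √2` (`a` times),
`‖1 - (-1)⁻¹‖ = 2` (`h` times), `‖1 - (-i)⁻¹‖ = √2` (`2 h` times). -/
def S_Yf : Prop := ∀ (G : Type) [Group G] (χ : G →* ℤˣ) (ψ : G →* Circle) (g : G), χ g = -1 →
  (ψ g : ℂ) = Complex.I → ∀ (A : Type) [Fintype A] [DecidableEq A] (M k h p a b d' : ℕ)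
  (ε : Fin b → QQ A M) (F' : EuclideanSpace ℝ (Fin (2 * d')) × WW A M b → CW (JJ A M)),
  Function.Injective ε → Fintype.card A = 2 * h → 2 * h + M = 2 * p + 1 → b + a = 2 * p + 1 →
  1 ≤ k → k < M → VanOn default univ F' →
  (∀ w, F' (0, w) = Conf.single (embb ε w) (Pk A M k) (Pk_herm M k) (Pk_idem M k)) →
  (∀ x w, F' (-x, (actU ψ A M b).a g w) = (actW χ ψ A M).a g (F' (x, w))) →
  (2 : ℝ) ^ d' ≤ k * (Real.sqrt 2 ^ a * 2 ^ h * Real.sqrt 2 ^ (2 * h))

/-- **NT.** The Tate construction of the witness is not `K(0)`-acyclic.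
(Uses `Cel.S_Ha`, `Cel.S_Co`, `Ext.S_T4`, `S_Sv`, `S_Ep`, `S_Si`, `S_G1`, `S_G2`, `S_Gr`, `S_Yf`.)

Proof. Suppose it is; `k`, `n` from `S_T4`, `A = AA n`, `|A| = 2 n + 2 = 2 h`, `h = n + 1`.  `d' = 3 h + k² + h + 1`, `d = 2 d'`, `M₀` from `S_T4` for `d`;
`M ≥ M₀` odd with `5 h + M ≥ d'`.  `b = 5 h + M - d'`, `a = d' - 3 h`, so `b + a = 2 h + M = 2 p + 1`, `b ≤ |QQ|`, `ε : Fin b → QQ` injective.
`d + (|A| + M) + 2 b = 2 d' + 2 h + M + 10 h + 2 M - 2 d' = 12 h + 3 M = 3 (2 |A| + M)`.  `G`, `χ`, `ψ`, `g` from `S_Gr`; `S_G1`, `S_G2` (`VanOn` of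
`w ↦ single (embb ε w) Pk` from `S_Sv` with `X = Unit`, `S_Ep`; or directly) give `F'`; `S_Yf`:
`2^d' ≤ k √2^(a + 2 h) 2^h`.  Squares: `4^d' ≤ k² 2^(d' - 3 h + 2 h) 4^h = k² 2^(d' + h)`, so `2^d' ≤ k² 2^h`, but `2^d' ≥ 2^(k²) 2^h 2 > k² 2^h`. -/
def S_NT : Prop := ∀ (hRe : Wi.S_Re) (hMu : Wi.S_Mu) (hUn : Wi.S_Un) (hT2 : Wi.S_T2),
  ¬ (W' hRe hMu hUn hT2).TateK0Acyclic

end Pool.Agent.Tate.Fi
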